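import Pool.Agent.H53.MC.Targets

/-!
MP_c62aed_lc, MonotoneSETH: row CHE (Chernoff and the union bound).
-/

set_option autoImplicit false

namespace Pool.Agent.H53.MC

open Finset

lemma exp_neg_quad {ε : ℝ} (h0 : 0 ≤ ε) : Real.exp (-ε) ≤ 1 - ε + ε ^ 2 / 2 := by
  have h1 := Real.quadratic_le_exp_of_nonneg h0
  have h2 : Real.exp (-ε) * Real.exp ε = 1 := by rw [← Real.exp_add]; simp
  have h3 : 0 < Real.exp ε := Real.exp_pos _
  have h4 : 0 ≤ 1 - ε + ε ^ 2 / 2 := by nlinarith [sq_nonneg (ε - 1)]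
  have h5 : 1 ≤ (1 - ε + ε ^ 2 / 2) * Real.exp ε := by
    have h6 : (1 - ε + ε ^ 2 / 2) * (1 + ε + ε ^ 2 / 2) ≤ (1 - ε + ε ^ 2 / 2) * Real.exp ε :=
      mul_le_mul_of_nonneg_left h1 h4
    have h7 : 1 ≤ (1 - ε + ε ^ 2 / 2) * (1 + ε + ε ^ 2 / 2) := by
      have h8 : (1 - ε + ε ^ 2 / 2) * (1 + ε + ε ^ 2 / 2) = 1 + ε ^ 4 / 4 := by ring
      rw [h8]
      have : 0 ≤ ε ^ 4 := by positivity
      linarith
    linarith
  by_contra hcon
  push Not at hcon
  have := mul_lt_mul_of_pos_right hcon h3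
  linarith

section

variable {n M k : ℕ} (e : Fin M → Fin k → Fin n) (x : Fin n → Bool) (ε : ℝ)

open Classical in
/-- the exponential weight of a clause -/
noncomputable def wgt (c : U M k) : ℝ := if Viol e c x then Real.exp (-ε) else 1

lemma wgt_pos (c : U M k) : 0 < wgt e x ε c := by
  unfold wgt
  split_ifs
  · exact Real.exp_pos _
  · exact one_pos

lemma sum_wgt : ∑ c : U M k, wgt e x ε c = M * (2 ^ k - (1 - Real.exp (-ε))) := by
  classical
  have h1 : ∀ j : Fin M, ∑ s : Fin k → Bool, wgt e x ε (j, s) = 2 ^ k - (1 - Real.exp (-ε)) := by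
    intro j
    have h2 : ∀ s : Fin k → Bool, wgt e x ε (j, s) =
        1 - (if s = (fun i => x (e j i)) then (1 - Real.exp (-ε)) else 0) := by
      intro s
      unfold wgt
      by_cases h : s = fun i => x (e j i)
      · rw [if_pos h, if_pos]
        · ring
        · intro i
          rw [h]
      · rw [if_neg h, if_neg]
        · ring
        · intro hv
          apply h
          funext i
          exact (hv i).symm
    rw [Finset.sum_congr rfl fun s _ => h2 s, Finset.sum_sub_distrib, Finset.sum_ite_eq',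
      if_pos (Finset.mem_univ _)]
    simp
  have h3 : ∑ c : U M k, wgt e x ε c = ∑ j : Fin M, ∑ s : Fin k → Bool, wgt e x ε (j, s) :=
    Fintype.sum_prod_type _
  rw [h3, Finset.sum_congr rfl fun j _ => h1 j, Finset.sum_const, Finset.card_univ,
    Fintype.card_fin, nsmul_eq_mul]

lemma prod_wgt {m : ℕ} (F : Fin m → U M k) : ∏ j, wgt e x ε (F j) =
    Real.exp (-ε * (Nat.card {j // Viol e (F j) x} : ℝ)) := by
  classical
  have h1 : ∀ j, wgt e x ε (F j) = Real.exp (-ε * (if Viol e (F j) x then 1 else 0)) := by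
    intro j
    unfold wgt
    split_ifs
    · rw [mul_one]
    · rw [mul_zero, Real.exp_zero]
  rw [Finset.prod_congr rfl fun j _ => h1 j, ← Real.exp_sum, ← Finset.mul_sum]
  congr 2
  rw [Nat.card_eq_fintype_card, Fintype.card_subtype, Finset.sum_boole]

lemma sum_exp {m : ℕ} (_ : 0 ≤ ε) : ∑ F : Fin m → U M k,
    Real.exp (-ε * (Nat.card {j // Viol e (F j) x} : ℝ)) ≤
      ((M : ℝ) * 2 ^ k) ^ m * Real.exp (-(1 - Real.exp (-ε)) * m / 2 ^ k) := by
  have h1 : ∑ F : Fin m → U M k, Real.exp (-ε * (Nat.card {j // Viol e (F j) x} : ℝ)) =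
      (∑ c : U M k, wgt e x ε c) ^ m := by
    rw [Fintype.sum_pow]
    exact Finset.sum_congr rfl fun F _ => (prod_wgt e x ε F).symm
  have h2 : (M : ℝ) * (2 ^ k - (1 - Real.exp (-ε))) ≤
      (M : ℝ) * 2 ^ k * Real.exp (-(1 - Real.exp (-ε)) / 2 ^ k) := by
    have h3 := Real.add_one_le_exp (-(1 - Real.exp (-ε)) / 2 ^ k)
    have h4 : (2 : ℝ) ^ k * (-(1 - Real.exp (-ε)) / 2 ^ k + 1) =
        2 ^ k - (1 - Real.exp (-ε)) := by
      field_simp
      ring
    rw [mul_assoc, ← h4]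
    exact mul_le_mul_of_nonneg_left (mul_le_mul_of_nonneg_left h3 (by positivity))
      (Nat.cast_nonneg M)
  have h5 : 0 ≤ ∑ c : U M k, wgt e x ε c :=
    Finset.sum_nonneg fun c _ => (wgt_pos e x ε c).le
  rw [h1]
  calc (∑ c : U M k, wgt e x ε c) ^ m
      ≤ ((M : ℝ) * 2 ^ k * Real.exp (-(1 - Real.exp (-ε)) / 2 ^ k)) ^ m := by
        apply pow_le_pow_left₀ h5
        rw [sum_wgt]
        exact h2
    _ = ((M : ℝ) * 2 ^ k) ^ m * Real.exp (-(1 - Real.exp (-ε)) * m / 2 ^ k) := by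
        rw [mul_pow, ← Real.exp_nat_mul]
        congr 2
        ring

end

theorem pf_CHE : T_CHE := by
  classical
  intro ε h0 h1
  refine ⟨⌈4 / ε ^ 2⌉₊, fun D t n M k e hD hM ht hnt => ?_⟩
  have hDε : 4 ≤ D * ε ^ 2 := by
    have h2 : 4 / ε ^ 2 ≤ D := (Nat.le_ceil _).trans (by exact_mod_cast hD)
    have h3 : 0 < ε ^ 2 := by positivity
    rwa [div_le_iff₀ h3] at h2
  set m := D * t * 2 ^ k with hm
  have hmk : (m : ℝ) / 2 ^ k = D * t := by
    rw [hm]
    push_cast
    field_simp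
  -- the bad formulas
  let Bx : (Fin n → Bool) → Finset (Fin m → U M k) := fun x =>
    univ.filter fun F => (Nat.card {j // Viol e (F j) x} : ℝ) < (1 - ε) * m / 2 ^ k
  have hBx : ∀ x, ((Bx x).card : ℝ) ≤ ((M : ℝ) * 2 ^ k) ^ m * Real.exp (-2 * t) := by
    intro x
    have h2 := sum_exp e x ε (m := m) h0.le
    have h3 : ((Bx x).card : ℝ) * Real.exp (-ε * ((1 - ε) * m / 2 ^ k)) ≤
        ∑ F : Fin m → U M k, Real.exp (-ε * (Nat.card {j // Viol e (F j) x} : ℝ)) := by
      rw [← nsmul_eq_mul]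
      refine (Finset.card_nsmul_le_sum (Bx x) (fun F =>
        Real.exp (-ε * (Nat.card {j // Viol e (F j) x} : ℝ))) _ ?_).trans
        (Finset.sum_le_sum_of_subset_of_nonneg (Finset.subset_univ _)
          fun F _ _ => (Real.exp_pos _).le)
      intro F hF
      have h4 := (Finset.mem_filter.1 hF).2
      apply Real.exp_le_exp.2
      nlinarith
    have h5 : ((Bx x).card : ℝ) ≤ ((M : ℝ) * 2 ^ k) ^ m *
        Real.exp (-(1 - Real.exp (-ε)) * m / 2 ^ k) * Real.exp (ε * ((1 - ε) * m / 2 ^ k)) := by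
      have h6 : 0 < Real.exp (ε * ((1 - ε) * m / 2 ^ k)) := Real.exp_pos _
      have h7 : Real.exp (-ε * ((1 - ε) * m / 2 ^ k)) *
          Real.exp (ε * ((1 - ε) * m / 2 ^ k)) = 1 := by
        rw [← Real.exp_add]
        rw [neg_mul, neg_add_cancel, Real.exp_zero]
      calc ((Bx x).card : ℝ) = ((Bx x).card : ℝ) * Real.exp (-ε * ((1 - ε) * m / 2 ^ k)) *
            Real.exp (ε * ((1 - ε) * m / 2 ^ k)) := by rw [mul_assoc, h7, mul_one]
        _ ≤ _ := mul_le_mul_of_nonneg_right (h3.trans h2) h6.le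
    refine h5.trans ?_
    rw [mul_assoc, ← Real.exp_add]
    refine mul_le_mul_of_nonneg_left (Real.exp_le_exp.2 ?_) (by positivity)
    have h8 : -(1 - Real.exp (-ε)) * m / 2 ^ k + ε * ((1 - ε) * m / 2 ^ k) =
        (Real.exp (-ε) - 1 + ε - ε ^ 2) * (m / 2 ^ k) := by ring
    rw [h8, hmk]
    have h9 := exp_neg_quad h0.le
    have h10 : Real.exp (-ε) - 1 + ε - ε ^ 2 ≤ -(ε ^ 2 / 2) := by linarith
    have h11 : (0 : ℝ) ≤ D * t := by positivity
    have h12 : (Real.exp (-ε) - 1 + ε - ε ^ 2) * (D * t) ≤ -(ε ^ 2 / 2) * (D * t) :=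
      mul_le_mul_of_nonneg_right h10 h11
    have h13 : (0 : ℝ) ≤ t := Nat.cast_nonneg t
    have h14 : 4 * (t : ℝ) ≤ D * ε ^ 2 * t := mul_le_mul_of_nonneg_right hDε h13
    nlinarith
  have hcover : (univ : Finset (Fin m → U M k)) ⊆
      (univ.filter fun F => Gap e ε F) ∪ univ.biUnion Bx := by
    intro F _
    by_cases hF : Gap e ε F
    · exact Finset.mem_union_left _ (Finset.mem_filter.2 ⟨Finset.mem_univ _, hF⟩)
    · unfold Gap at hF
      push Not at hF
      obtain ⟨x, hx⟩ := hF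
      exact Finset.mem_union_right _ (Finset.mem_biUnion.2 ⟨x, Finset.mem_univ _,
        Finset.mem_filter.2 ⟨Finset.mem_univ _, hx⟩⟩)
  have hcardU : Fintype.card (Fin m → U M k) = (M * 2 ^ k) ^ m := by
    simp [U, Fintype.card_prod]
  have hgap : Nat.card {F : Fin m → U M k // Gap e ε F} =
      (univ.filter fun F : Fin m → U M k => Gap e ε F).card := by
    rw [Nat.card_eq_fintype_card, Fintype.card_subtype]
  have h15 : ((M * 2 ^ k) ^ m : ℕ) ≤ (univ.filter fun F : Fin m → U M k => Gap e ε F).card +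
      (univ.biUnion Bx).card := by
    rw [← hcardU, ← Finset.card_univ]
    exact (Finset.card_le_card hcover).trans (Finset.card_union_le _ _)
  have h16 : ((univ.biUnion Bx).card : ℝ) ≤ (1 / 2) * ((M : ℝ) * 2 ^ k) ^ m := by
    have h17 : ((univ.biUnion Bx).card : ℝ) ≤ ∑ x : Fin n → Bool, ((Bx x).card : ℝ) := by
      exact_mod_cast Finset.card_biUnion_le
    have h18 : ∑ x : Fin n → Bool, ((Bx x).card : ℝ) ≤
        2 ^ n * (((M : ℝ) * 2 ^ k) ^ m * Real.exp (-2 * t)) := by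
      refine (Finset.sum_le_sum fun x _ => hBx x).trans ?_
      rw [Finset.sum_const, Finset.card_univ, nsmul_eq_mul]
      simp
    have h19 : (2 : ℝ) ^ n * Real.exp (-2 * t) ≤ 1 / 2 := by
      have h20 : (2 : ℝ) ^ n ≤ 2 ^ t := pow_le_pow_right₀ (by norm_num) hnt
      have h21 : Real.exp (-2 * (t : ℝ)) = (Real.exp (-2)) ^ t := by
        rw [← Real.exp_nat_mul]
        congr 1
        ring
      have h22 : Real.exp (-2) ≤ 1 / 4 := by
        rw [Real.exp_neg, one_div]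
        apply inv_anti₀ (by norm_num)
        have := Real.exp_one_gt_d9
        have h23 : Real.exp 2 = Real.exp 1 * Real.exp 1 := by
          rw [← Real.exp_add]
          norm_num
        rw [h23]
        nlinarith
      have h24 : Real.exp (-2) ^ t ≤ (1 / 4) ^ t :=
        pow_le_pow_left₀ (Real.exp_pos _).le h22 t
      rw [h21]
      calc (2 : ℝ) ^ n * Real.exp (-2) ^ t ≤ 2 ^ t * (1 / 4) ^ t :=
            mul_le_mul h20 h24 (by positivity) (by positivity)
        _ = (1 / 2) ^ t := by rw [← mul_pow]; norm_num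
        _ ≤ 1 / 2 := by
            have := pow_le_pow_of_le_one (by norm_num : (0 : ℝ) ≤ 1 / 2) (by norm_num) ht
            rwa [pow_one] at this
    have h25 : (0 : ℝ) ≤ ((M : ℝ) * 2 ^ k) ^ m := by positivity
    calc ((univ.biUnion Bx).card : ℝ) ≤ 2 ^ n * (((M : ℝ) * 2 ^ k) ^ m * Real.exp (-2 * t)) :=
          h17.trans h18
      _ = (2 ^ n * Real.exp (-2 * t)) * ((M : ℝ) * 2 ^ k) ^ m := by ring
      _ ≤ (1 / 2) * ((M : ℝ) * 2 ^ k) ^ m := mul_le_mul_of_nonneg_right h19 h25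
  rw [hgap]
  have h26 : (((M * 2 ^ k) ^ m : ℕ) : ℝ) ≤
      ((univ.filter fun F : Fin m → U M k => Gap e ε F).card : ℝ) +
      ((univ.biUnion Bx).card : ℝ) := by exact_mod_cast h15
  have h27 : (((M * 2 ^ k) ^ m : ℕ) : ℝ) ≤
      ((2 * (univ.filter fun F : Fin m → U M k => Gap e ε F).card : ℕ) : ℝ) := by
    push_cast at h26 ⊢
    linarith
  exact_mod_cast h27

end Pool.Agent.H53.MC
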