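import Pool.Agent.H53.MC.Targets

/-!
MP_c62aed_lc, MonotoneSETH: row LX (exceptions of a chain).
-/

set_option autoImplicit false

namespace Pool.Agent.H53.MC

open Finset

section
variable {n M k : ℕ} (e : Fin M → Fin k → Fin n)

theorem ins_congr {A : Finset (Fin n)} {x y : Fin n → Bool} (h : ∀ a ∈ A, y a = x a)
    {c : U M k} (hc : Ins e (A, y) c) : Ins e (A, x) c := by
  refine ⟨hc.1, fun i => ?_⟩
  have h1 := h _ (hc.1 (mem_image.2 ⟨i, mem_univ _, rfl⟩))
  have h2 := hc.2 i
  exact h1.symm.trans h2

theorem ker_congr {r w : ℕ} {B : Finset (Fin n → Bool)} {A : Finset (Fin n)}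
    {x y : Fin n → Bool} (h : ∀ a ∈ A, y a = x a) (hc : (A, y) ∈ Ker e r w B) :
    (A, x) ∈ Ker e r w B := by
  refine ⟨hc.1, fun T hT hT' => ?_⟩
  obtain ⟨c, hc1, hc2⟩ := hc.2 T hT hT'
  exact ⟨c, hc1, ins_congr e h hc2⟩

open Classical in
/-- the assignments of `R` which agree with `x` on `A` -/
noncomputable def RA (R : Finset (Fin n → Bool)) (A : Finset (Fin n)) (x : Fin n → Bool) :
    Finset (Fin n → Bool) := R.filter (fun y => ∀ a ∈ A, y a = x a)

theorem card_agree (A : Finset (Fin n)) (x : Fin n → Bool) (R : Finset (Fin n → Bool)) :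
    (RA R A x).card ≤ 2 ^ (n - A.card) := by
  classical
  have h1 : (RA R A x).card ≤ (univ : Finset ({a : Fin n // a ∉ A} → Bool)).card := by
    apply card_le_card_of_injOn (fun y a => y a.1) (fun _ _ => mem_coe.2 (mem_univ _))
    intro y hy z hz hyz
    have hy' := (mem_filter.1 (mem_coe.1 hy)).2
    have hz' := (mem_filter.1 (mem_coe.1 hz)).2
    funext a
    by_cases ha : a ∈ A
    · rw [hy' a ha, hz' a ha]
    · exact congrFun hyz ⟨a, ha⟩
  refine h1.trans ?_
  rw [card_univ, Fintype.card_fun, Fintype.card_bool]
  apply Nat.pow_le_pow_right (by norm_num)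
  have h2 : Fintype.card {a : Fin n // a ∉ A} = n - A.card := by
    rw [Fintype.card_subtype_compl, Fintype.card_fin, Fintype.card_coe]
  exact h2.le

theorem scope_card (j : Fin M) : (scope e j).card ≤ k := by
  unfold scope
  refine card_image_le.trans ?_
  rw [card_univ, Fintype.card_fin]

theorem cnt_lt {A : Finset (Fin n)} {j : Fin M} (hj : ¬ scope e j ⊆ A) :
    cnt e A + 1 ≤ cnt e (A ∪ scope e j) := by
  unfold cnt
  rw [Nat.add_one_le_iff]
  apply card_lt_card
  refine ⟨fun i hi => ?_, fun h => hj ?_⟩
  · rw [mem_filter] at hi ⊢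
    exact ⟨hi.1, hi.2.trans subset_union_left⟩
  · have := h (mem_filter.2 ⟨mem_univ j, subset_union_right⟩)
    exact (mem_filter.1 this).2

theorem cnt_mono {A A' : Finset (Fin n)} (h : A ⊆ A') : cnt e A ≤ cnt e A' := by
  unfold cnt
  apply card_le_card
  intro i hi
  rw [mem_filter] at hi ⊢
  exact ⟨hi.1, hi.2.trans h⟩

/-- the main induction -/
theorem lx_main (r w d s₀ : ℕ) (hr : 1 ≤ r) (h1 : H1 e w s₀)
    (𝒞 : Set (Finset (Fin n → Bool))) (hC : IsChain (· ⊆ ·) 𝒞) (R : Finset (Fin n → Bool))
    (hR : ∀ y ∈ R, ∃ B ∈ 𝒞, y ∈ Err e r w B) :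
    ∀ (N : ℕ) (A : Finset (Fin n)) (x : Fin n → Bool) (p q : ℕ), n ≤ A.card + N →
      w ≤ A.card + p * d → s₀ ≤ cnt e A + q →
      (RA R A x).card ≤ r ^ p * 2 ^ (d * q) * 2 ^ (n - w) := by
  classical
  intro N
  induction N with
  | zero =>
    intro A x p q hN hp hq
    have hA : A.card ≤ n := by
      have := card_le_univ A
      rwa [Fintype.card_fin] at this
    have h2 : (RA R A x).card ≤ 2 ^ (n - A.card) := card_agree A x R
    have h3 : n - A.card = 0 := by omega
    rw [h3, pow_zero] at h2
    refine h2.trans ?_
    exact Nat.one_le_iff_ne_zero.2 (by positivity)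
  | succ N ih =>
    intro A x p q hN hp hq
    by_cases hw : w ≤ A.card
    · refine (card_agree A x R).trans ?_
      calc 2 ^ (n - A.card) ≤ 1 * 1 * 2 ^ (n - w) := by
            rw [one_mul, one_mul]
            exact Nat.pow_le_pow_right (by norm_num) (by omega)
        _ ≤ _ := by
            gcongr
            · exact Nat.one_le_pow _ _ hr
            · exact Nat.one_le_pow _ _ (by norm_num)
    · push Not at hw
      have hpiece : ∀ (A' : Finset (Fin n)) (S : Finset (Fin n → Bool)) (p' q' : ℕ),
          A.card + 1 ≤ A'.card → S ⊆ R → (∀ y ∈ S, ∀ z ∈ S, ∀ a ∈ A', y a = z a) →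
          w ≤ A'.card + p' * d → s₀ ≤ cnt e A' + q' →
          S.card ≤ r ^ p' * 2 ^ (d * q') * 2 ^ (n - w) := by
        intro A' S p' q' hA' hS hSS hp' hq'
        rcases S.eq_empty_or_nonempty with rfl | ⟨z, hz⟩
        · rw [card_empty]; exact Nat.zero_le _
        · have h3 : S ⊆ RA R A' z := by
            intro y hy
            exact mem_filter.2 ⟨hS hy, fun a ha => hSS y hy z hz a ha⟩
          exact (card_le_card h3).trans (ih A' z p' q' (by omega) hp' hq')
      by_cases hcl : ∃ j : Fin M, ¬ scope e j ⊆ A ∧ (scope e j \ A).card ≤ d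
      · obtain ⟨j, hj, hjd⟩ := hcl
        have hA' : A.card + 1 ≤ (A ∪ scope e j).card := by
          rw [Nat.add_one_le_iff]
          apply card_lt_card
          exact ⟨subset_union_left, fun h => hj (subset_union_right.trans h)⟩
        have hcard : (A ∪ scope e j).card ≤ w + k := by
          have := card_union_le A (scope e j)
          have := scope_card e j
          omega
        have hc1 := cnt_lt e hj
        have hc2 := h1 _ hcard
        have hq1 : 1 ≤ q := by omega
        obtain ⟨q', rfl⟩ := Nat.exists_eq_add_of_le' hq1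
        have hmap := card_le_mul_card_image_of_maps_to
          (f := fun (y : Fin n → Bool) (a : {a : Fin n // a ∈ scope e j \ A}) => y a.1)
          (s := RA R A x) (t := univ) (fun _ _ => mem_univ _)
          (r ^ p * 2 ^ (d * q') * 2 ^ (n - w)) (by
            intro g _
            apply hpiece (A ∪ scope e j) _ p q' hA'
            · intro y hy
              exact (mem_filter.1 (mem_filter.1 hy).1).1
            · intro y hy z hz a ha
              rw [mem_filter] at hy hz
              have hy1 := (mem_filter.1 hy.1).2
              have hz1 := (mem_filter.1 hz.1).2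
              by_cases haA : a ∈ A
              · rw [hy1 a haA, hz1 a haA]
              · have hat : a ∈ scope e j \ A := by
                  rcases mem_union.1 ha with h | h
                  · exact absurd h haA
                  · exact mem_sdiff.2 ⟨h, haA⟩
                have h5 := congrFun (hy.2.trans hz.2.symm) ⟨a, hat⟩
                exact h5
            · omega
            · omega)
        refine hmap.trans ?_
        rw [card_univ, Fintype.card_fun, Fintype.card_bool, Fintype.card_coe]
        calc r ^ p * 2 ^ (d * q') * 2 ^ (n - w) * 2 ^ (scope e j \ A).card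
            ≤ r ^ p * 2 ^ (d * q') * 2 ^ (n - w) * 2 ^ d := by
              gcongr
              norm_num
          _ = r ^ p * 2 ^ (d * (q' + 1)) * 2 ^ (n - w) := by ring
      · push Not at hcl
        rcases (RA R A x).eq_empty_or_nonempty with h0 | ⟨y0, hy0⟩
        · rw [h0, card_empty]; exact Nat.zero_le _
        · -- the members of the chain whose kernel misses `(A, x)`
          have hmiss : ∀ y ∈ RA R A x, ∃ B ∈ 𝒞, y ∈ Err e r w B ∧ (A, x) ∉ Ker e r w B := by
            intro y hy
            obtain ⟨hyR, hyA⟩ := mem_filter.1 hy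
            obtain ⟨B, hB, hyB⟩ := hR y hyR
            refine ⟨B, hB, hyB, fun hk => ?_⟩
            have h3 := (mem_filter.1 hyB).2 A hw
            exact h3 (ker_congr e (fun a ha => (hyA a ha).symm) hk)
          let 𝒟 : Finset (Finset (Fin n → Bool)) :=
            univ.filter (fun B => B ∈ 𝒞 ∧ (A, x) ∉ Ker e r w B)
          have hD : 𝒟.Nonempty := by
            obtain ⟨B, hB, _, hk⟩ := hmiss y0 hy0
            exact ⟨B, mem_filter.2 ⟨mem_univ _, hB, hk⟩⟩
          obtain ⟨B, hB, hmax⟩ := exists_max_image 𝒟 card hD
          obtain ⟨_, hBC, hBk⟩ := mem_filter.1 hB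
          have hsub : ∀ y ∈ RA R A x, y ∈ B := by
            intro y hy
            obtain ⟨B2, hB2, hy2, hk2⟩ := hmiss y hy
            have h3 := hmax B2 (mem_filter.2 ⟨mem_univ _, hB2, hk2⟩)
            have h4 : B2 ⊆ B := by
              rcases hC.total hB2 hBC with h | h
              · exact h
              · exact (eq_of_subset_of_card_le h h3).symm.subset
            exact h4 (mem_filter.1 hy2).1
          have hT : ∃ T : Finset (U M k), T.card ≤ r ∧ Covers e T B ∧ ∀ c ∈ T, ¬ Ins e (A, x) c := by
            by_contra hno
            push Not at hno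
            exact hBk ⟨hw, fun T h3 h4 => by
              obtain ⟨c, hc, hc'⟩ := hno T h3 h4
              exact ⟨c, hc, hc'⟩⟩
          obtain ⟨T, hTr, hTc, hTn⟩ := hT
          have hp1 : 1 ≤ p := by
            rcases Nat.eq_zero_or_pos p with h | h
            · subst h; omega
            · exact h
          obtain ⟨p', rfl⟩ := Nat.exists_eq_add_of_le' hp1
          have hcov : RA R A x ⊆ T.biUnion (fun c => (RA R A x).filter (fun y => Viol e c y)) := by
            intro y hy
            obtain ⟨c, hc, hv⟩ := hTc y (hsub y hy)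
            exact mem_biUnion.2 ⟨c, hc, mem_filter.2 ⟨hy, hv⟩⟩
          have hbound : ∀ c ∈ T, ((RA R A x).filter (fun y => Viol e c y)).card ≤
              r ^ p' * 2 ^ (d * q) * 2 ^ (n - w) := by
            intro c hc
            rcases ((RA R A x).filter (fun y => Viol e c y)).eq_empty_or_nonempty with h | ⟨z, hz⟩
            · rw [h, card_empty]; exact Nat.zero_le _
            · have hz1 := mem_filter.1 hz
              have hz2 := (mem_filter.1 hz1.1).2
              have hnot : ¬ scope e c.1 ⊆ A := by
                intro hs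
                exact hTn c hc (ins_congr e hz2 ⟨hs, hz1.2⟩)
              have h5 := hcl c.1 hnot
              have h6 : A.card + (d + 1) ≤ (A ∪ scope e c.1).card := by
                have h7 : (A ∪ scope e c.1).card = A.card + (scope e c.1 \ A).card := by
                  rw [← union_sdiff_self_eq_union]
                  exact card_union_of_disjoint disjoint_sdiff
                omega
              apply hpiece (A ∪ scope e c.1) _ p' q (by omega)
              · intro y hy
                exact (mem_filter.1 (mem_filter.1 hy).1).1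
              · intro y hy z hz a ha
                rw [mem_filter] at hy hz
                have hy1 := (mem_filter.1 hy.1).2
                have hz1 := (mem_filter.1 hz.1).2
                rcases mem_union.1 ha with h | h
                · rw [hy1 a h, hz1 a h]
                · obtain ⟨i, _, rfl⟩ := mem_image.1 h
                  rw [hy.2 i, hz.2 i]
              · have : (p' + 1) * d = p' * d + d := by ring
                omega
              · have := cnt_mono e (subset_union_left (s₁ := A) (s₂ := scope e c.1))
                omega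
          calc (RA R A x).card
              ≤ (T.biUnion (fun c => (RA R A x).filter (fun y => Viol e c y))).card :=
                card_le_card hcov
            _ ≤ ∑ c ∈ T, ((RA R A x).filter (fun y => Viol e c y)).card := card_biUnion_le
            _ ≤ ∑ c ∈ T, r ^ p' * 2 ^ (d * q) * 2 ^ (n - w) := sum_le_sum hbound
            _ = T.card * (r ^ p' * 2 ^ (d * q) * 2 ^ (n - w)) := by
                rw [sum_const, smul_eq_mul]
            _ ≤ r * (r ^ p' * 2 ^ (d * q) * 2 ^ (n - w)) := Nat.mul_le_mul_right _ hTr
            _ = r ^ (p' + 1) * 2 ^ (d * q) * 2 ^ (n - w) := by ring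

end

theorem pf_LX : T_LX := by
  classical
  intro n M k e r w d s₀ hr hd hw h1 𝒞 hC
  let R : Finset (Fin n → Bool) := univ.filter (fun x => ∃ B ∈ 𝒞, x ∈ Err e r w B)
  have h2 := lx_main e r w d s₀ hr h1 𝒞 hC R (fun y hy => (mem_filter.1 hy).2) n ∅
    (fun _ => false) (w / d + 1) s₀ (by omega) (by
      rw [card_empty, zero_add]
      have h5 := Nat.div_add_mod w d
      have h6 := Nat.mod_lt w (by omega : 0 < d)
      have h7 : (w / d + 1) * d = d * (w / d) + d := by ring
      omega) (by omega)
  have h3 : Nat.card {x : Fin n → Bool // ∃ B ∈ 𝒞, x ∈ Err e r w B} = R.card := by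
    rw [Nat.card_eq_fintype_card, Fintype.card_subtype]
  have h4 : RA R ∅ (fun _ => false) = R := by
    unfold RA
    apply filter_true_of_mem
    intro y _ a ha
    exact absurd ha (notMem_empty a)
  rw [h4] at h2
  rw [h3]
  exact h2

end Pool.Agent.H53.MC
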