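import Pool.Agent.H53.MC.Defs

/-!
MP_c62aed_lc, MonotoneSETH: the rows. Page: /team-store/R28_c62aed_MONOTONE.md
-/

set_option autoImplicit false

namespace Pool.Agent.H53.MC

open Finset

/-! ### Counting -/

/-- TOC: the clause `toC e c`: falsified = violated, width exactly `k`. -/
def T_TOC : Prop :=
  ∀ {n M k : ℕ} (e : Fin M → Fin k → Fin n), (∀ j, Function.Injective (e j)) →
    ∀ c : U M k, (∀ x, Falsified (toC e c) x ↔ Viol e c x) ∧ Width k (toC e c)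

/-- CAP: few clauses cover few assignments. -/
def T_CAP : Prop :=
  ∀ {n M k : ℕ} (e : Fin M → Fin k → Fin n) (q : ℕ), (∀ j, Function.Injective (e j)) →
    ∀ (T : Finset (U M k)) (B : Finset (Fin n → Bool)), T.card ≤ q → Covers e T B →
      B.card ≤ q * 2 ^ (n - k)

/-- RG: the number of `m`-tuples whose range contains `T`. -/
def T_RG : Prop :=
  ∀ {α : Type} [Fintype α] (m : ℕ) (T : Finset α), T.card ≤ m →
    Nat.card {F : Fin m → α // ∀ c ∈ T, ∃ j, F j = c} ≤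
      m ^ T.card * Fintype.card α ^ (m - T.card)

/-- HIT: at most `s₀` clauses are inside `(A, x)`; the formulas which hit `(A, x)`. -/
def T_HIT : Prop :=
  ∀ {n M k : ℕ} (e : Fin M → Fin k → Fin n) (w s₀ : ℕ), H1 e w s₀ →
    ∀ p : Finset (Fin n) × (Fin n → Bool), p.1.card < w →
      Nat.card {c : U M k // Ins e p c} ≤ s₀ ∧
      ∀ m : ℕ, Nat.card {F : Fin m → U M k // ∃ j, Ins e p (F j)} ≤
        m * s₀ * (M * 2 ^ k) ^ (m - 1)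

/-- CHE: Chernoff and the union bound: at least half of the formulas have the gap property. -/
def T_CHE : Prop :=
  ∀ ε : ℝ, 0 < ε → ε < 1 → ∃ D₀ : ℕ, ∀ (D t n M k : ℕ) (e : Fin M → Fin k → Fin n), D₀ ≤ D →
    1 ≤ M → 1 ≤ t → n ≤ t →
    (M * 2 ^ k) ^ (D * t * 2 ^ k) ≤ 2 * Nat.card {F : Fin (D * t * 2 ^ k) → U M k // Gap e ε F}

/-- EXH: scopes exist. -/
def T_EXH : Prop :=
  ∀ (δ z : ℝ) (n M k w s₀ : ℕ), 0 < δ → 1 ≤ k → (w : ℝ) ≤ (1 - δ) * n → (4 * k : ℝ) ≤ δ * n →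
    (M : ℝ) * Real.exp (-(δ * k / 2)) ≤ (2 : ℝ) ^ (-z) → (n : ℝ) < z * (s₀ + 1) →
    ∃ e : Fin M → Fin k → Fin n, (∀ j, Function.Injective (e j)) ∧ H1 e w s₀

/-! ### The assignment side -/

/-- KM: the kernel is monotone; a chain of sets has a chain of kernels. -/
def T_KM : Prop :=
  ∀ {n M k : ℕ} (e : Fin M → Fin k → Fin n) (r w : ℕ),
    (∀ B B' : Finset (Fin n → Bool), B ⊆ B' → Ker e r w B ⊆ Ker e r w B') ∧
    (∀ h : ℕ → Set (Clause n) → ℝ, ∀ i, IsChain (· ⊆ ·) (KC e r w h i) ∧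
      ∀ K ∈ KC e r w h i, ∀ p ∈ K, p.1.card < w)

/-- LX (Lemma X): the exceptions of a chain. -/
def T_LX : Prop :=
  ∀ {n M k : ℕ} (e : Fin M → Fin k → Fin n) (r w d s₀ : ℕ), 1 ≤ r → 1 ≤ d → w ≤ n → H1 e w s₀ →
    ∀ 𝒞 : Set (Finset (Fin n → Bool)), IsChain (· ⊆ ·) 𝒞 →
      Nat.card {x : Fin n → Bool // ∃ B ∈ 𝒞, x ∈ Err e r w B} ≤ tau n r w d s₀

/-- LS (Lemma S, stability). -/
def T_LS : Prop :=
  ∀ {n M k : ℕ} (e : Fin M → Fin k → Fin n) (r w d s₀ : ℕ), 1 ≤ r → 1 ≤ d → w ≤ n → H1 e w s₀ →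
    ∀ 𝓛 : Finset (Line n), ∃ E : Finset (Fin n → Bool), E.card ≤ 𝓛.card * tau n r w d s₀ ∧
      ∀ L ∈ 𝓛, Err e r w (Lᶜ \ E) = ∅

/-! ### The formula side -/

/-- LF (Lemma F): few formulas are bad for a chain. -/
def T_LF : Prop :=
  ∀ {n M k : ℕ} (e : Fin M → Fin k → Fin n) (w s₀ m q : ℕ), H1 e w s₀ → q + 1 ≤ m →
    ∀ 𝒦 : Set (Set (Finset (Fin n) × (Fin n → Bool))), IsChain (· ⊆ ·) 𝒦 →
      (∀ K ∈ 𝒦, ∀ p ∈ K, p.1.card < w) →
      Nat.card {F : Fin m → U M k // Bad e q 𝒦 F} ≤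
        (s₀ * m) ^ (q + 1) * (M * 2 ^ k) ^ (m - (q + 1))

/-- LK (Lemma K): a cover by `r` clauses of `F` is replaced by a cover by at most `q`. -/
def T_LK : Prop :=
  ∀ {n M k : ℕ} (e : Fin M → Fin k → Fin n) (r w m q : ℕ)
    (𝒦 : Set (Set (Finset (Fin n) × (Fin n → Bool)))) (B : Finset (Fin n → Bool))
    (F : Fin m → U M k), ¬ Bad e q 𝒦 F → Ker e r w B ∈ 𝒦 → ∀ T : Finset (U M k), InR F T →
      T.card ≤ r → Covers e T B →
      (∀ p ∈ Ker e r w B, ∃ j, Ins e p (F j)) ∧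
      ∃ T' : Finset (U M k), InR F T' ∧ T'.card ≤ q ∧ Covers e T' (B \ Err e r w B)

/-! ### The two proofs -/

/-- PL: every derived line has a small cover, and the formula hits the kernel of the line. -/
def T_PL : Prop :=
  ∀ {n M k : ℕ} (e : Fin M → Fin k → Fin n) (r w m q t : ℕ), (∀ j, Function.Injective (e j)) →
    t + t * q ≤ r → ∀ (𝓛 : Finset (Line n)) (E : Finset (Fin n → Bool)),
    (∀ L ∈ 𝓛, Err e r w (Lᶜ \ E) = ∅) → ∀ F : Fin m → U M k,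
    (∀ L ∈ 𝓛, ¬ Bad e q {Ker e r w (Lᶜ \ E)} F) → ∀ L : Line n, Derives (cf e F) 𝓛 t L →
      L ∈ 𝓛 ∧ (∃ T : Finset (U M k), InR F T ∧ T.card ≤ q ∧ Covers e T (Lᶜ \ E)) ∧
      ∀ p ∈ Ker e r w (Lᶜ \ E), ∃ j, Ins e p (F j)

/-- EC: the number of exceptions of a circuit. -/
def T_EC : Prop :=
  ∀ {n M k : ℕ} (e : Fin M → Fin k → Fin n) (r w d s₀ : ℕ), 1 ≤ r → 1 ≤ d → w ≤ n → H1 e w s₀ →
    ∀ (h : ℕ → Set (Clause n) → ℝ) (i : ℕ), (EE e r w h i).card ≤ i * tau n r w d s₀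

/-- PC: circuits. -/
def T_PC : Prop :=
  ∀ {n M k : ℕ} (e : Fin M → Fin k → Fin n) (r w m q t s : ℕ), (∀ j, Function.Injective (e j)) →
    1 ≤ t → 1 ≤ q → t + t * q ≤ r → ∀ h : ℕ → Set (Clause n) → ℝ, Circuit t s h →
    ∀ F : Fin m → U M k, (∀ i, i < s → ¬ Bad e q (KC e r w h i) F) → ∀ i, i < s →
      (∃ T : Finset (U M k), InR F T ∧ T.card ≤ q ∧
        Covers e T (BB (EE e r w h (i + 1)) (h i) (h i (Set.range (cf e F))))) ∧
      ∀ a, a ≤ h i (Set.range (cf e F)) → ∀ p ∈ Ker e r w (BB (EE e r w h i) (h i) a),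
        ∃ j, Ins e p (F j)

/-! ### Assembly -/

/-- AL: part (1) for the list of the formulas with the gap property. -/
def T_AL : Prop :=
  ∀ {n M k : ℕ} (e : Fin M → Fin k → Fin n) (ε : ℝ) (t m w d s₀ r q : ℕ), 0 < ε → ε < 1 →
    (∀ j, Function.Injective (e j)) → H1 e w s₀ → Par ε n t k m M w d s₀ r q →
    (M * 2 ^ k) ^ m ≤ 2 * Nat.card {F : Fin m → U M k // Gap e ε F} →
    ∀ (𝓛 : Finset (Line n)) (L : Line n),
      Few ε n t 𝓛.card (Nat.card {x // x ∉ L})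
        (Nat.card {F : {F : Fin m → U M k // Gap e ε F} // Derives (cf e F.1) 𝓛 t L})
        (Nat.card {F : Fin m → U M k // Gap e ε F})

/-- AC: part (2) for the list of the formulas with the gap property. -/
def T_AC : Prop :=
  ∀ {n M k : ℕ} (e : Fin M → Fin k → Fin n) (ε : ℝ) (t m w d s₀ r q : ℕ), 0 < ε → ε < 1 →
    (∀ j, Function.Injective (e j)) → H1 e w s₀ → Par ε n t k m M w d s₀ r q →
    (M * 2 ^ k) ^ m ≤ 2 * Nat.card {F : Fin m → U M k // Gap e ε F} →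
    ∀ (s : ℕ) (h : ℕ → Set (Clause n) → ℝ), Circuit t s h → ∀ o, o < s → ∀ θ : ℝ,
      Few ε n t s (Nat.card {x // h o (SatBy x) < θ})
        (Nat.card {F : {F : Fin m → U M k // Gap e ε F} // θ ≤ h o (Set.range (cf e F.1))})
        (Nat.card {F : Fin m → U M k // Gap e ε F})

/-- NUM: the parameters. -/
def T_NUM : Prop :=
  ∀ (ε : ℝ) (D₀ : ℕ), 0 < ε → ε < 1 → ∃ C : ℕ, ∀ n t : ℕ, C ≤ n → n ≤ t → C * Nat.log 2 t ≤ n →
    ∃ (D k M w d s₀ r q : ℕ) (δ z : ℝ), D₀ ≤ D ∧ Par ε n t k (D * t * 2 ^ k) M w d s₀ r q ∧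
      k ≤ C * Nat.log 2 t ∧ 0 < D * t * 2 ^ k ∧ D * t * 2 ^ k ≤ t ^ C ∧
      0 < δ ∧ (w : ℝ) ≤ (1 - δ) * n ∧ (4 * k : ℝ) ≤ δ * n ∧
      (M : ℝ) * Real.exp (-(δ * k / 2)) ≤ (2 : ℝ) ^ (-z) ∧ (n : ℝ) < z * (s₀ + 1)

/-- ASM: the final statement. -/
def T_ASM : Prop := Main

end Pool.Agent.H53.MC
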