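import Pool.Agent.H53.MC.Targets

/-!
MP_c62aed_lc, MonotoneSETH, row AL: part (1) for the formulas with the gap property.
-/

set_option autoImplicit false

namespace Pool.Agent.H53.MC

open Finset

theorem natCard_le {α : Type} [Fintype α] (P Q : α → Prop) (h : ∀ x, P x → Q x) :
    Nat.card {x // P x} ≤ Nat.card {x // Q x} :=
  Nat.card_le_card_of_injective (fun x : {x // P x} => (⟨x.1, h x.1 x.2⟩ : {x // Q x}))
    fun x y hxy => Subtype.ext (by simpa using congrArg Subtype.val hxy)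

theorem natCard_or {α : Type} [Fintype α] (P Q : α → Prop) :
    Nat.card {x // P x ∨ Q x} ≤ Nat.card {x // P x} + Nat.card {x // Q x} := by
  classical
  rw [Nat.card_eq_fintype_card, Nat.card_eq_fintype_card, Nat.card_eq_fintype_card,
    Fintype.card_subtype, Fintype.card_subtype, Fintype.card_subtype, Finset.filter_or]
  exact Finset.card_union_le _ _

theorem natCard_ex {α β : Type} [Fintype α] (S : Finset β) (P : β → α → Prop) (X : ℕ)
    (h : ∀ b ∈ S, Nat.card {x // P b x} ≤ X) :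
    Nat.card {x // ∃ b ∈ S, P b x} ≤ S.card * X := by
  classical
  rw [Nat.card_eq_fintype_card, Fintype.card_subtype]
  have h1 : (univ.filter fun x : α => ∃ b ∈ S, P b x) =
      S.biUnion fun b => univ.filter fun x => P b x := by
    ext x
    simp
  rw [h1]
  refine Finset.card_biUnion_le_card_mul _ _ _ fun b hb => ?_
  have := h b hb
  rwa [Nat.card_eq_fintype_card, Fintype.card_subtype] at this

theorem pf_AL (hLS : T_LS) (hLF : T_LF) (hPL : T_PL) (hCAP : T_CAP) (hHIT : T_HIT) : T_AL := by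
  classical
  intro n M k e ε t m w d s₀ r q hε hε1 he hH hP hhalf 𝓛 L
  have hr : 1 ≤ r := by
    have := hP.rr
    have := hP.t1
    omega
  obtain ⟨E, hEc, hE⟩ := hLS e r w d s₀ hr hP.d1 hP.wn hH 𝓛
  set X : ℕ := (s₀ * m) ^ (q + 1) * (M * 2 ^ k) ^ (m - (q + 1)) with hX
  set N : ℕ := Nat.card {F : Fin m → U M k // Gap e ε F} with hN
  set a : ℕ := Nat.card {F : {F : Fin m → U M k // Gap e ε F} // Derives (cf e F.1) 𝓛 t L}
    with ha
  set b : ℕ := Nat.card {x // x ∉ L} with hb
  -- the bad formulas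
  have hBad : Nat.card {F : Fin m → U M k //
      ∃ L ∈ 𝓛, Bad e q {Ker e r w (Lᶜ \ E)} F} ≤ 𝓛.card * X := by
    refine natCard_ex 𝓛 (fun L F => Bad e q {Ker e r w (Lᶜ \ E)} F) X fun L' hL' => ?_
    refine hLF e w s₀ m q hH hP.qm {Ker e r w (L'ᶜ \ E)} ?_ ?_
    · intro K hK K' hK' hne
      rw [Set.mem_singleton_iff] at hK hK'
      exact absurd (hK.trans hK'.symm) hne
    · intro K hK p hp
      rw [Set.mem_singleton_iff] at hK
      rw [hK] at hp
      exact hp.1
  -- derived lines of good formulas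
  have hgood : ∀ F : Fin m → U M k, ¬ (∃ L ∈ 𝓛, Bad e q {Ker e r w (Lᶜ \ E)} F) →
      Derives (cf e F) 𝓛 t L →
      L ∈ 𝓛 ∧ (∃ T : Finset (U M k), InR F T ∧ T.card ≤ q ∧ Covers e T (Lᶜ \ E)) ∧
      ∀ p ∈ Ker e r w (Lᶜ \ E), ∃ j, Ins e p (F j) := by
    intro F hF hD
    refine hPL e r w m q t he hP.rr 𝓛 E hE F ?_ L hD
    intro L' hL' hbad
    exact hF ⟨L', hL', hbad⟩
  have hale : ∀ P : (Fin m → U M k) → Prop, (∀ F, Derives (cf e F) 𝓛 t L → P F) →
      a ≤ Nat.card {F : Fin m → U M k // P F} := by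
    intro P hPP
    refine Nat.card_le_card_of_injective
      (fun F : {F : {F : Fin m → U M k // Gap e ε F} // Derives (cf e F.1) 𝓛 t L} =>
        (⟨F.1.1, hPP F.1.1 F.2⟩ : {F : Fin m → U M k // P F})) fun x y hxy => ?_
    exact Subtype.ext (Subtype.ext (by simpa using congrArg Subtype.val hxy))
  have hbc : b = (Lᶜ).card := by
    rw [hb, Nat.card_eq_fintype_card, Fintype.card_subtype]
    congr 1
    ext x
    simp
  have hb2 : b ≤ 2 ^ n := by
    rw [hbc]
    calc (Lᶜ).card ≤ Fintype.card (Fin n → Bool) := Finset.card_le_univ _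
      _ = 2 ^ n := by simp
  have hsplit : b ≤ E.card + (Lᶜ \ E).card := by
    rw [hbc]
    have := Finset.card_le_card_sdiff_add_card (s := Lᶜ) (t := E)
    omega
  have hUpos : 0 < (M * 2 ^ k) ^ m := by
    have := hP.M1
    positivity
  have hNpos : 0 < N := by
    by_contra h
    have : N = 0 := by omega
    rw [this] at hhalf
    omega
  have h2pos : (0 : ℝ) < 2 ^ (ε * n) := by positivity
  have hpow : (2 : ℝ) ^ ((1 - ε) * n) * 2 ^ (ε * n) = 2 ^ n := by
    rw [← Real.rpow_add (by norm_num), ← Real.rpow_natCast]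
    congr 1
    ring
  have hEr : (E.card : ℝ) ≤ 𝓛.card * tau n r w d s₀ := by exact_mod_cast hEc
  have htau0 : (0 : ℝ) ≤ tau n r w d s₀ := Nat.cast_nonneg _
  have h1pow : (1 : ℝ) ≤ 2 ^ (ε * n) := Real.one_le_rpow (by norm_num) (by positivity)
  refine ⟨fun hs hbig => ?_, fun hs => ?_⟩
  · -- (a)
    have hsn : 𝓛.card ≤ 2 ^ n := by
      have h1 : (𝓛.card : ℝ) ≤ 2 ^ n := by
        refine hs.trans ?_
        rw [← hpow]
        have : (0 : ℝ) < 2 ^ ((1 - ε) * n) := by positivity
        nlinarith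
      exact_mod_cast h1
    have hin : ∀ F : Fin m → U M k, Derives (cf e F) 𝓛 t L →
        ∃ L ∈ 𝓛, Bad e q {Ker e r w (Lᶜ \ E)} F := by
      intro F hD
      by_contra hno
      obtain ⟨_, ⟨T, _, hTq, hTc⟩, _⟩ := hgood F hno hD
      have h1 := hCAP e q he T (Lᶜ \ E) hTq hTc
      have h2 : 4 * (E.card : ℝ) ≤ 2 ^ n := by
        calc 4 * (E.card : ℝ) ≤ 4 * (𝓛.card * tau n r w d s₀) := by linarith
          _ = 𝓛.card * (4 * tau n r w d s₀) := by ring
          _ ≤ 2 ^ ((1 - ε) * n) * 2 ^ (ε * n) := by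
              gcongr
              exact hP.tau4
          _ = 2 ^ n := hpow
      have h3 : 4 * E.card ≤ 2 ^ n := by exact_mod_cast h2
      have h4 := hP.cov
      omega
    have h5 := (hale _ hin).trans hBad
    have h6 : a ≤ 2 ^ n * X := h5.trans (Nat.mul_le_mul_right _ hsn)
    have h7 : 4 * (2 ^ t * a) ≤ 2 * N := by
      calc 4 * (2 ^ t * a) ≤ 4 * (2 ^ t * (2 ^ n * X)) := by gcongr
        _ = 2 ^ (n + t + 2) * X := by rw [pow_add, pow_add]; ring
        _ ≤ (M * 2 ^ k) ^ m := hP.bad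
        _ ≤ 2 * N := hhalf
    omega
  · -- (b)
    by_cases hLL : L ∈ 𝓛
    · have hsn : 𝓛.card ≤ 2 ^ n := by
        have h1 : (𝓛.card : ℝ) ≤ 2 ^ n := by
          have h2 : (b : ℝ) ≤ 2 ^ n := by exact_mod_cast hb2
          have h3 : (𝓛.card : ℝ) ≤ 𝓛.card * 2 ^ (ε * n) :=
            le_mul_of_one_le_right (Nat.cast_nonneg _) h1pow
          linarith
        exact_mod_cast h1
      have hEb : E.card < b := by
        have h1 : (E.card : ℝ) < b := by
          calc (E.card : ℝ) ≤ 𝓛.card * tau n r w d s₀ := hEr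
            _ ≤ 𝓛.card * 2 ^ (ε * n) := by
                gcongr
                have := hP.tau4
                linarith
            _ < b := hs
        exact_mod_cast h1
      have hne : (Lᶜ \ E).Nonempty := by
        rw [← Finset.card_pos]
        omega
      obtain ⟨x, hx⟩ := hne
      have hxE : x ∉ Err e r w (Lᶜ \ E) := by
        rw [hE L hLL]
        exact Finset.notMem_empty x
      obtain ⟨A, hAw, hAK⟩ : ∃ A : Finset (Fin n), A.card < w ∧
          (A, x) ∈ Ker e r w (Lᶜ \ E) := by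
        by_contra hno
        push Not at hno
        refine hxE ?_
        unfold Err
        rw [Finset.mem_filter]
        exact ⟨hx, hno⟩
      have hin : ∀ F : Fin m → U M k, Derives (cf e F) 𝓛 t L →
          (∃ L ∈ 𝓛, Bad e q {Ker e r w (Lᶜ \ E)} F) ∨ ∃ j, Ins e (A, x) (F j) := by
        intro F hD
        by_cases hbd : ∃ L ∈ 𝓛, Bad e q {Ker e r w (Lᶜ \ E)} F
        · exact Or.inl hbd
        · exact Or.inr ((hgood F hbd hD).2.2 _ hAK)
      have h5 := (hale _ hin).trans (natCard_or _ _)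
      have h6 := (hHIT e w s₀ hH (A, x) hAw).2 m
      have h7 : a ≤ 2 ^ n * X + m * s₀ * (M * 2 ^ k) ^ (m - 1) :=
        h5.trans (Nat.add_le_add (hBad.trans (Nat.mul_le_mul_right _ hsn)) h6)
      have ht2 : t ≤ 2 ^ t := Nat.lt_two_pow_self.le
      have h8 : 4 * (t * (2 ^ n * X)) ≤ (M * 2 ^ k) ^ m := by
        calc 4 * (t * (2 ^ n * X)) ≤ 4 * (2 ^ t * (2 ^ n * X)) := by gcongr
          _ = 2 ^ (n + t + 2) * X := by rw [pow_add, pow_add]; ring
          _ ≤ (M * 2 ^ k) ^ m := hP.bad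
      have h9 : 4 * (t * (m * s₀ * (M * 2 ^ k) ^ (m - 1))) ≤ (M * 2 ^ k) ^ m := hP.hit
      have h10 : t * a ≤ t * (2 ^ n * X + m * s₀ * (M * 2 ^ k) ^ (m - 1)) :=
        Nat.mul_le_mul_left _ h7
      rw [mul_add] at h10
      omega
    · have ha0 : a = 0 := by
        rw [ha]
        have : IsEmpty {F : {F : Fin m → U M k // Gap e ε F} // Derives (cf e F.1) 𝓛 t L} := by
          refine ⟨fun F => hLL ?_⟩
          cases F.2 with
          | step _ _ _ h _ _ _ _ _ => exact h
        exact Nat.card_of_isEmpty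
      rw [ha0, mul_zero]
      exact Nat.zero_le _

end Pool.Agent.H53.MC
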