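import Mathlib
import Pool.Agent.H53.MC.Targets

/-!
MP_c62aed_lc, MonotoneSETH: Lemma S (stability).
-/

set_option autoImplicit false

namespace Pool.Agent.H53.MC

open Finset

theorem pf_LS (hLX : T_LX) : T_LS := by
  classical
  intro n M k e r w d s₀ hr hd hw hH 𝓛
  -- the invariant
  let P : Finset (Fin n → Bool) → Prop := fun E =>
    ∃ R : Line n → Finset (Fin n → Bool), E = 𝓛.biUnion R ∧
      ∀ L ∈ 𝓛, ∃ 𝒞 : Set (Finset (Fin n → Bool)), IsChain (· ⊆ ·) 𝒞 ∧
        (∀ B ∈ 𝒞, Lᶜ \ E ⊆ B) ∧ ∀ x ∈ R L, ∃ B ∈ 𝒞, x ∈ Err e r w B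
  have h0 : P ∅ := by
    refine ⟨fun _ => ∅, ?_, fun L _ => ⟨∅, ?_, ?_, ?_⟩⟩
    · ext x; simp
    · exact Set.subsingleton_empty.isChain
    · intro B hB; exact absurd hB (Set.notMem_empty B)
    · intro x hx; exact absurd hx (Finset.notMem_empty x)
  obtain ⟨E, hE, hmax⟩ := (univ.filter P).exists_max_image Finset.card
    ⟨∅, by simpa using h0⟩
  rw [Finset.mem_filter] at hE
  obtain ⟨R, hER, hR⟩ := hE.2
  refine ⟨E, ?_, ?_⟩
  · rw [hER]
    refine Finset.card_biUnion_le_card_mul _ _ _ fun L hL => ?_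
    obtain ⟨𝒞, h𝒞, -, hx⟩ := hR L hL
    refine le_trans ?_ (hLX e r w d s₀ hr hd hw hH 𝒞 h𝒞)
    rw [Nat.card_eq_fintype_card, Fintype.card_subtype]
    refine Finset.card_le_card fun x hxR => ?_
    rw [Finset.mem_filter]
    exact ⟨Finset.mem_univ _, hx x hxR⟩
  · intro L₀ hL₀
    by_contra hne
    obtain ⟨y, hy⟩ := Finset.nonempty_iff_ne_empty.2 hne
    have hErr : Err e r w (L₀ᶜ \ E) ⊆ L₀ᶜ \ E := by
      unfold Err
      exact Finset.filter_subset _ _
    have hyE : y ∉ E := (Finset.mem_sdiff.1 (hErr hy)).2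
    have hP : P (E ∪ Err e r w (L₀ᶜ \ E)) := by
      refine ⟨fun L => if L = L₀ then R L ∪ Err e r w (L₀ᶜ \ E) else R L, ?_, ?_⟩
      · ext x
        simp only [Finset.mem_union, Finset.mem_biUnion]
        constructor
        · rintro (hx | hx)
          · rw [hER, Finset.mem_biUnion] at hx
            obtain ⟨L, hL, hxL⟩ := hx
            refine ⟨L, hL, ?_⟩
            split_ifs
            · exact Finset.mem_union_left _ hxL
            · exact hxL
          · refine ⟨L₀, hL₀, ?_⟩
            rw [if_pos rfl]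
            exact Finset.mem_union_right _ hx
        · rintro ⟨L, hL, hx⟩
          split_ifs at hx with h
          · rcases Finset.mem_union.1 hx with hx | hx
            · left; rw [hER, Finset.mem_biUnion]; exact ⟨L, hL, hx⟩
            · right; exact hx
          · left; rw [hER, Finset.mem_biUnion]; exact ⟨L, hL, hx⟩
      · intro L hL
        obtain ⟨𝒞, h𝒞, hB, hx⟩ := hR L hL
        have hsub : L₀ᶜ \ (E ∪ Err e r w (L₀ᶜ \ E)) ⊆ L₀ᶜ \ E :=
          Finset.sdiff_subset_sdiff (Finset.Subset.refl _) Finset.subset_union_left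
        by_cases h : L = L₀
        · subst h
          refine ⟨insert (Lᶜ \ E) 𝒞, ?_, ?_, ?_⟩
          · exact h𝒞.insert fun B hBC _ => Or.inl (hB B hBC)
          · intro B hBC
            rcases Set.mem_insert_iff.1 hBC with h1 | h1
            · rw [h1]; exact hsub
            · exact hsub.trans (hB B h1)
          · intro x hxR
            beta_reduce at hxR
            rw [if_pos rfl] at hxR
            rcases Finset.mem_union.1 hxR with h1 | h1
            · obtain ⟨B, hBC, hxB⟩ := hx x h1
              exact ⟨B, Set.mem_insert_of_mem _ hBC, hxB⟩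
            · exact ⟨Lᶜ \ E, Set.mem_insert _ _, h1⟩
        · refine ⟨𝒞, h𝒞, ?_, ?_⟩
          · intro B hBC
            exact (Finset.sdiff_subset_sdiff (Finset.Subset.refl _)
              Finset.subset_union_left).trans (hB B hBC)
          · intro x hxR
            beta_reduce at hxR
            rw [if_neg h] at hxR
            exact hx x hxR
    have h1 := hmax (E ∪ Err e r w (L₀ᶜ \ E)) (by
      rw [Finset.mem_filter]; exact ⟨Finset.mem_univ _, hP⟩)
    have h2 : E.card < (E ∪ Err e r w (L₀ᶜ \ E)).card := by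
      refine Finset.card_lt_card ⟨Finset.subset_union_left, fun h => hyE ?_⟩
      exact h (Finset.mem_union_right _ hy)
    exact absurd h1 (not_le.2 h2)

end Pool.Agent.H53.MC
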