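import Pool.Agent.H53.MC.Targets

/-!
MP_c62aed_lc, MonotoneSETH: row PL.
-/

set_option autoImplicit false

namespace Pool.Agent.H53.MC

open Finset

theorem pf_PL (hLK : T_LK) (hTOC : T_TOC) : T_PL := by
  intro n M k e r w m q t he hr 𝓛 E hE F hB L hD
  classical
  induction hD with
  | step L P T hL hP hPd hT hTF himp ih =>
    choose TQ hTQ1 hTQ2 hTQ3 using fun Q hQ => (ih Q hQ).2.1
    choose jc hjc using hTF
    let S1 : Finset (U M k) := P.attach.biUnion fun Q => TQ Q.1 Q.2
    let S2 : Finset (U M k) := T.attach.image fun c => F (jc c.1 c.2)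
    have hS1 : InR F S1 := by
      intro c hc
      obtain ⟨Q, -, hQ⟩ := Finset.mem_biUnion.1 hc
      exact hTQ1 Q.1 Q.2 c hQ
    have hS2 : InR F S2 := by
      intro c hc
      obtain ⟨a, -, ha⟩ := Finset.mem_image.1 hc
      exact ⟨_, ha⟩
    have hR : InR F (S1 ∪ S2) := by
      intro c hc
      rcases Finset.mem_union.1 hc with h | h
      · exact hS1 c h
      · exact hS2 c h
    have hc1 : S1.card ≤ t * q := by
      have h1 := Finset.card_biUnion_le_card_mul P.attach (fun Q => TQ Q.1 Q.2) q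
        (fun Q _ => hTQ2 Q.1 Q.2)
      rw [Finset.card_attach] at h1
      exact h1.trans (Nat.mul_le_mul_right q hP)
    have hc2 : S2.card ≤ t := by
      have h1 := Finset.card_image_le (s := T.attach) (f := fun c => F (jc c.1 c.2))
      rw [Finset.card_attach] at h1
      exact h1.trans hT
    have hcard : (S1 ∪ S2).card ≤ r := by
      have h1 := Finset.card_union_le S1 S2
      omega
    have hcov : Covers e (S1 ∪ S2) (Lᶜ \ E) := by
      intro x hx
      rw [Finset.mem_sdiff, Finset.mem_compl] at hx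
      have h1 : ¬ ((∀ Q ∈ P, x ∈ Q) ∧ ∀ c ∈ T, ¬ Falsified c x) := fun h =>
        hx.1 (himp x h.1 h.2)
      rw [not_and_or] at h1
      rcases h1 with h1 | h1
      · push Not at h1
        obtain ⟨Q, hQ, hxQ⟩ := h1
        obtain ⟨c, hc, hv⟩ := hTQ3 Q hQ x (by
          rw [Finset.mem_sdiff, Finset.mem_compl]
          exact ⟨hxQ, hx.2⟩)
        exact ⟨c, Finset.mem_union_left _ (Finset.mem_biUnion.2
          ⟨⟨Q, hQ⟩, Finset.mem_attach _ _, hc⟩), hv⟩
      · push Not at h1
        obtain ⟨c, hc, hf⟩ := h1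
        refine ⟨F (jc c hc), Finset.mem_union_right _ (Finset.mem_image.2
          ⟨⟨c, hc⟩, Finset.mem_attach _ _, rfl⟩), ?_⟩
        rw [← (hTOC e he (F (jc c hc))).1 x]
        have h2 : toC e (F (jc c hc)) = c := hjc c hc
        rw [h2]
        exact hf
    obtain ⟨h1, T', h2, h3, h4⟩ := hLK e r w m q {Ker e r w (Lᶜ \ E)} (Lᶜ \ E) F (hB L hL)
      rfl (S1 ∪ S2) hR hcard hcov
    rw [hE L hL, Finset.sdiff_empty] at h4
    exact ⟨hL, ⟨T', h2, h3, h4⟩, h1⟩

end Pool.Agent.H53.MC
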