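import Pool.Agent.H53.MC.Targets

set_option autoImplicit false

namespace Pool.Agent.H53.MC

theorem pf_TOC : T_TOC := by
  intro n M k e he c
  refine ⟨?_, ?_, ?_⟩
  · intro x
    constructor
    · intro h i
      have h1 := h (e c.1 i, !(c.2 i)) (Finset.mem_image.mpr ⟨i, Finset.mem_univ i, rfl⟩)
      have h2 : x (e c.1 i) ≠ !(c.2 i) := h1
      cases hx : x (e c.1 i) <;> cases hc : c.2 i <;> simp_all
    · intro h l hl
      obtain ⟨i, -, rfl⟩ := Finset.mem_image.mp hl
      have h1 : x (e c.1 i) = c.2 i := h i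
      show x (e c.1 i) ≠ !(c.2 i)
      rw [h1]
      cases c.2 i <;> simp
  · unfold toC
    rw [Finset.card_image_of_injective]
    · simp
    · intro i i' h
      exact he c.1 (congrArg Prod.fst h)
  · intro l hl l' hl' h
    obtain ⟨i, -, rfl⟩ := Finset.mem_image.mp hl
    obtain ⟨i', -, rfl⟩ := Finset.mem_image.mp hl'
    have h1 : i = i' := he c.1 h
    rw [h1]

end Pool.Agent.H53.MC
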