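import Pool.Agent.H53.MC.Targets

open Finset

namespace Pool.Agent.H53.MC

theorem pc_fals {n M k : ℕ} (e : Fin M → Fin k → Fin n) (c : U M k) (x : Fin n → Bool)
    (h : Falsified (toC e c) x) : Viol e c x := by
  intro i
  have := h (e c.1 i, !(c.2 i)) (mem_image.2 ⟨i, mem_univ _, rfl⟩)
  simp only at this
  revert this
  cases x (e c.1 i) <;> cases c.2 i <;> simp

theorem pc_ker {n M k : ℕ} (e : Fin M → Fin k → Fin n) (r w : ℕ)
    {B B' : Finset (Fin n → Bool)} (hB : B ⊆ B') : Ker e r w B ⊆ Ker e r w B' := by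
  intro p hp
  exact ⟨hp.1, fun T hT hc => hp.2 T hT fun x hx => hc x (hB hx)⟩

theorem pc_mono {n M k : ℕ} (e : Fin M → Fin k → Fin n) (r w : ℕ)
    (h : ℕ → Set (Clause n) → ℝ) {i j : ℕ} (hij : i ≤ j) : EE e r w h i ⊆ EE e r w h j := by
  induction hij with
  | refl => exact Subset.refl _
  | step _ ih =>
    refine Subset.trans ih ?_
    rw [EE]
    exact subset_union_left

theorem pf_PC : T_PC := by
  classical
  intro n M k e r w m q t s _he ht hq hr h hC F hF
  -- the step: a cover by at most `r` clauses gives both conclusions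
  have step : ∀ i, i < s → (∃ T : Finset (U M k), InR F T ∧ T.card ≤ r ∧
      Covers e T (BB (EE e r w h i) (h i) (h i (Set.range (cf e F))))) →
      (∃ T : Finset (U M k), InR F T ∧ T.card ≤ q ∧
        Covers e T (BB (EE e r w h (i + 1)) (h i) (h i (Set.range (cf e F))))) ∧
      ∀ a, a ≤ h i (Set.range (cf e F)) → ∀ p ∈ Ker e r w (BB (EE e r w h i) (h i) a),
        ∃ j, Ins e p (F j) := by
    intro i hi ⟨T₀, hT₀, hT₀c, hT₀v⟩
    have hit : ∀ p ∈ Ker e r w (BB (EE e r w h i) (h i) (h i (Set.range (cf e F)))),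
        ∃ j, Ins e p (F j) := by
      intro p hp
      obtain ⟨c, hc, hin⟩ := hp.2 T₀ hT₀c hT₀v
      obtain ⟨j, hj⟩ := hT₀ c hc
      exact ⟨j, hj ▸ hin⟩
    constructor
    · have hnb := hF i hi
      unfold Bad at hnb
      push Not at hnb
      obtain ⟨T', hT', hT'c, hT'p⟩ := hnb _ ⟨_, rfl⟩ hit
      refine ⟨T', hT', hT'c, ?_⟩
      intro x hx
      rw [BB, mem_filter] at hx
      obtain ⟨_, hx1, hx2⟩ := hx
      rw [EE, mem_union, not_or] at hx1
      obtain ⟨hx3, hx4⟩ := hx1
      have hxB : x ∈ BB (EE e r w h i) (h i) (h i (Set.range (cf e F))) := by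
        rw [BB, mem_filter]
        exact ⟨mem_univ _, hx3, hx2⟩
      have hx5 : x ∉ Err e r w (BB (EE e r w h i) (h i) (h i (Set.range (cf e F)))) := by
        intro hh
        exact hx4 (mem_filter.2 ⟨mem_univ _, _, hh⟩)
      rw [Err, mem_filter, not_and] at hx5
      have hx6 := hx5 hxB
      push Not at hx6
      obtain ⟨A, _, hA⟩ := hx6
      obtain ⟨c, hc, hin⟩ := hT'p _ hA
      exact ⟨c, hc, hin.2⟩
    · intro a ha p hp
      refine hit p (pc_ker e r w ?_ hp)
      intro x hx
      rw [BB, mem_filter] at hx ⊢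
      exact ⟨hx.1, hx.2.1, lt_of_lt_of_le hx.2.2 ha⟩
  intro i
  induction i using Nat.strong_induction_on with
  | _ i ih =>
    intro hi
    refine step i hi ?_
    rcases hC i hi with ⟨c, hc⟩ | ⟨J, hJc, hJi, hJm⟩
    · by_cases hcr : c ∈ Set.range (cf e F)
      · obtain ⟨j, hj⟩ := hcr
        refine ⟨{F j}, ?_, ?_, ?_⟩
        · intro c' hc'
          rw [mem_singleton] at hc'
          exact ⟨j, hc'.symm⟩
        · rw [card_singleton]
          exact le_trans (le_trans ht (Nat.le_add_right t (t * q))) hr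
        · intro x hx
          rw [BB, mem_filter] at hx
          refine ⟨F j, mem_singleton_self _, pc_fals e (F j) x ?_⟩
          have h1 : h i (Set.range (cf e F)) = 1 := (hc _).1 ⟨j, hj⟩
          have h2 : c ∉ SatBy x := by
            intro hcx
            have h3 := (hc _).1 hcx
            have h4 := hx.2.2
            rw [h1, h3] at h4
            exact lt_irrefl _ h4
          simp only [SatBy, Set.mem_ofPred_eq, not_not] at h2
          rw [← hj] at h2
          exact h2
      · refine ⟨∅, ?_, ?_, ?_⟩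
        · intro c' hc'
          simp at hc'
        · simp
        · intro x hx
          exfalso
          rw [BB, mem_filter] at hx
          have h1 : h i (Set.range (cf e F)) = 0 := (hc _).2 hcr
          have h4 := hx.2.2
          rw [h1] at h4
          by_cases hcx : c ∈ SatBy x
          · rw [(hc _).1 hcx] at h4
            linarith
          · rw [(hc _).2 hcx] at h4
            exact lt_irrefl _ h4
    · have hex : ∀ j ∈ J, ∃ T : Finset (U M k), InR F T ∧ T.card ≤ q ∧
          Covers e T (BB (EE e r w h (j + 1)) (h j) (h j (Set.range (cf e F)))) :=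
        fun j hj => (ih j (hJi j hj) (lt_trans (hJi j hj) hi)).1
      choose! T hT1 hT2 hT3 using hex
      refine ⟨J.biUnion T, ?_, ?_, ?_⟩
      · intro c hc
        obtain ⟨j, hj, hcj⟩ := mem_biUnion.1 hc
        exact hT1 j hj c hcj
      · calc (J.biUnion T).card ≤ ∑ j ∈ J, (T j).card := card_biUnion_le
          _ ≤ ∑ j ∈ J, q := sum_le_sum fun j hj => hT2 j hj
          _ = J.card * q := by rw [sum_const, smul_eq_mul]
          _ ≤ t * q := Nat.mul_le_mul_right _ hJc
          _ ≤ t + t * q := Nat.le_add_left _ _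
          _ ≤ r := hr
      · intro x hx
        rw [BB, mem_filter] at hx
        obtain ⟨_, hx1, hx2⟩ := hx
        have hlt : ∃ j ∈ J, h j (SatBy x) < h j (Set.range (cf e F)) := by
          by_contra hcon
          push Not at hcon
          have := hJm (Set.range (cf e F)) (SatBy x) hcon
          linarith
        obtain ⟨j, hj, hjlt⟩ := hlt
        have hxj : x ∈ BB (EE e r w h (j + 1)) (h j) (h j (Set.range (cf e F))) := by
          rw [BB, mem_filter]
          refine ⟨mem_univ _, ?_, hjlt⟩
          intro hh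
          exact hx1 (pc_mono e r w h (Nat.succ_le_of_lt (hJi j hj)) hh)
        obtain ⟨c, hc, hv⟩ := hT3 j hj x hxj
        exact ⟨c, mem_biUnion.2 ⟨j, hj, hc⟩, hv⟩

end Pool.Agent.H53.MC
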