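import Pool.Agent.H53.MC.Targets

/-!
MP_c62aed_lc, MonotoneSETH: the row AC.
-/

set_option autoImplicit false

namespace Pool.Agent.H53.MC

open Finset

namespace ACaux

theorem card_mono {α : Type} [Finite α] {P Q : α → Prop} (h : ∀ x, P x → Q x) :
    Nat.card {x // P x} ≤ Nat.card {x // Q x} :=
  Nat.card_le_card_of_injective (fun x : {x // P x} => (⟨x.1, h x.1 x.2⟩ : {x // Q x}))
    (fun _ _ hab => Subtype.ext (congrArg (fun z : {x // Q x} => z.1) hab))

theorem card_or {α : Type} [Finite α] (P Q : α → Prop) :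
    Nat.card {x // P x ∨ Q x} ≤ Nat.card {x // P x} + Nat.card {x // Q x} := by
  classical
  have := Fintype.ofFinite α
  simp only [Nat.card_eq_fintype_card]
  exact Fintype.card_subtype_or P Q

theorem card_ex {α : Type} [Finite α] (B : ℕ → α → Prop) (X : ℕ) :
    ∀ s : ℕ, (∀ i, i < s → Nat.card {x // B i x} ≤ X) →
      Nat.card {x // ∃ i, i < s ∧ B i x} ≤ s * X := by
  intro s
  induction s with
  | zero =>
    intro _
    have : IsEmpty {x : α // ∃ i, i < 0 ∧ B i x} := ⟨fun x => by
      obtain ⟨i, hi, _⟩ := x.2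
      omega⟩
    simp
  | succ s ih =>
    intro h
    have h1 := ih (fun i hi => h i (by omega))
    have h2 := h s (by omega)
    have h3 : Nat.card {x // ∃ i, i < s + 1 ∧ B i x} ≤
        Nat.card {x // (∃ i, i < s ∧ B i x) ∨ B s x} := by
      apply card_mono
      rintro x ⟨i, hi, hb⟩
      rcases Nat.lt_succ_iff_lt_or_eq.mp hi with h' | h'
      · exact Or.inl ⟨i, h', hb⟩
      · exact Or.inr (h' ▸ hb)
    have h4 := card_or (fun x => ∃ i, i < s ∧ B i x) (B s)
    calc _ ≤ _ := h3
      _ ≤ _ := h4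
      _ ≤ s * X + X := Nat.add_le_add h1 h2
      _ = (s + 1) * X := by ring

theorem le_two_pow {ε : ℝ} {n s : ℕ} (hε : 0 < ε) (h : (s : ℝ) ≤ 2 ^ ((1 - ε) * n)) :
    s ≤ 2 ^ n := by
  have h1 : (2 : ℝ) ^ ((1 - ε) * n) ≤ 2 ^ ((n : ℕ) : ℝ) := by
    apply Real.rpow_le_rpow_of_exponent_le (by norm_num)
    have : (0 : ℝ) ≤ n := Nat.cast_nonneg n
    nlinarith
  rw [Real.rpow_natCast] at h1
  have h2 : (s : ℝ) ≤ 2 ^ n := h.trans h1
  exact_mod_cast h2

theorem pow_split {ε : ℝ} (n : ℕ) : (2 : ℝ) ^ ((1 - ε) * n) * 2 ^ (ε * n) = 2 ^ n := by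
  rw [← Real.rpow_add (by norm_num)]
  have : (1 - ε) * n + ε * n = ((n : ℕ) : ℝ) := by ring
  rw [this, Real.rpow_natCast]

end ACaux

open ACaux in
theorem pf_AC (hEC : T_EC) (hLF : T_LF) (hPC : T_PC) (hKM : T_KM) (hCAP : T_CAP) (hHIT : T_HIT) :
    T_AC := by
  intro n M k e ε t m w d s₀ r q hε0 hε1 hinj hH1 hP hN s h hc o ho θ
  classical
  -- notation
  set N := Nat.card {F : Fin m → U M k // Gap e ε F} with hNdef
  set X := (s₀ * m) ^ (q + 1) * (M * 2 ^ k) ^ (m - (q + 1)) with hX
  set Um := (M * 2 ^ k) ^ m with hUm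
  have hUpos : 0 < Um := by
    rw [hUm]
    have := hP.M1
    positivity
  have hNpos : 0 < N := by omega
  have hKMi := (hKM e r w).2 h
  -- the bad formulas
  have hbad : Nat.card {F : Fin m → U M k // ∃ i, i < s ∧ Bad e q (KC e r w h i) F} ≤ s * X := by
    apply card_ex
    intro i _
    exact hLF e w s₀ m q hH1 hP.qm (KC e r w h i) (hKMi i).1 (hKMi i).2
  have hr1 : 1 ≤ r := by
    have := hP.rr
    have := hP.t1
    omega
  have hEE : ∀ i, (EE e r w h i).card ≤ i * tau n r w d s₀ :=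
    hEC e r w d s₀ hr1 hP.d1 hP.wn hH1 h
  have hPC' : ∀ F : Fin m → U M k, ¬ (∃ i, i < s ∧ Bad e q (KC e r w h i) F) →
      (∃ T : Finset (U M k), InR F T ∧ T.card ≤ q ∧
        Covers e T (BB (EE e r w h (o + 1)) (h o) (h o (Set.range (cf e F))))) ∧
      ∀ a, a ≤ h o (Set.range (cf e F)) → ∀ p ∈ Ker e r w (BB (EE e r w h o) (h o) a),
        ∃ j, Ins e p (F j) := by
    intro F hF
    refine hPC e r w m q t s hinj hP.t1 hP.q1 hP.rr h hc F ?_ o ho
    intro i hi hb
    exact hF ⟨i, hi, hb⟩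
  have hXb : s ≤ 2 ^ n → 4 * (2 ^ t * (s * X)) ≤ Um := by
    intro hs
    have h1 := hP.bad
    calc 4 * (2 ^ t * (s * X)) ≤ 4 * (2 ^ t * (2 ^ n * X)) := by gcongr
      _ = 2 ^ (n + t + 2) * X := by
        rw [pow_add, pow_add]
        ring
      _ ≤ Um := h1
  constructor
  · -- (a)
    intro hs hb
    have hsn : s ≤ 2 ^ n := le_two_pow hε0 hs
    have hall : ∀ F : Fin m → U M k, θ ≤ h o (Set.range (cf e F)) →
        ∃ i, i < s ∧ Bad e q (KC e r w h i) F := by
      intro F hF
      by_contra hcon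
      obtain ⟨⟨T, hT1, hT2, hT3⟩, _⟩ := hPC' F hcon
      have hcap := hCAP e q hinj T _ hT2 hT3
      have hsub : (univ.filter fun x : Fin n → Bool => h o (SatBy x) < θ) ⊆
          EE e r w h (o + 1) ∪ BB (EE e r w h (o + 1)) (h o) (h o (Set.range (cf e F))) := by
        intro x hx
        rw [mem_filter] at hx
        rw [mem_union]
        by_cases hxe : x ∈ EE e r w h (o + 1)
        · exact Or.inl hxe
        · right
          unfold BB
          rw [mem_filter]
          exact ⟨mem_univ _, hxe, lt_of_lt_of_le hx.2 hF⟩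
      have hcard : Nat.card {x : Fin n → Bool // h o (SatBy x) < θ} ≤
          (o + 1) * tau n r w d s₀ + q * 2 ^ (n - k) := by
        rw [Nat.card_eq_fintype_card, Fintype.card_subtype]
        calc _ ≤ _ := card_le_card hsub
          _ ≤ _ := card_union_le _ _
          _ ≤ _ := Nat.add_le_add (hEE (o + 1)) hcap
      have hr : (4 : ℝ) * ((o + 1) * tau n r w d s₀ : ℕ) ≤ 2 ^ n := by
        have h1 : ((o + 1 : ℕ) : ℝ) ≤ 2 ^ ((1 - ε) * n) := by
          refine le_trans ?_ hs
          exact_mod_cast ho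
        have h2 := hP.tau4
        calc (4 : ℝ) * ((o + 1) * tau n r w d s₀ : ℕ)
            = ((o + 1 : ℕ) : ℝ) * (4 * (tau n r w d s₀ : ℝ)) := by push_cast; ring
          _ ≤ 2 ^ ((1 - ε) * n) * 2 ^ (ε * n) := by
            apply mul_le_mul h1 h2 (by positivity) (by positivity)
          _ = 2 ^ n := pow_split n
      have hr' : 4 * ((o + 1) * tau n r w d s₀) ≤ 2 ^ n := by exact_mod_cast hr
      have hcov := hP.cov
      omega
    have ha : Nat.card {F : {F : Fin m → U M k // Gap e ε F} //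
        θ ≤ h o (Set.range (cf e F.1))} ≤ s * X := by
      refine le_trans ?_ hbad
      refine Nat.card_le_card_of_injective
        (fun F : {F : {F : Fin m → U M k // Gap e ε F} // θ ≤ h o (Set.range (cf e F.1))} =>
          (⟨F.1.1, hall F.1.1 F.2⟩ :
            {F : Fin m → U M k // ∃ i, i < s ∧ Bad e q (KC e r w h i) F})) ?_
      intro a b hab
      exact Subtype.ext (Subtype.ext (congrArg (fun z : {F : Fin m → U M k //
        ∃ i, i < s ∧ Bad e q (KC e r w h i) F} => z.1) hab))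
    have h1 := hXb hsn
    have h2 : 2 ^ t * Nat.card {F : {F : Fin m → U M k // Gap e ε F} //
        θ ≤ h o (Set.range (cf e F.1))} ≤ 2 ^ t * (s * X) := Nat.mul_le_mul_left _ ha
    omega
  · -- (b)
    intro hb
    have hbn : Nat.card {x : Fin n → Bool // h o (SatBy x) < θ} ≤ 2 ^ n := by
      rw [Nat.card_eq_fintype_card]
      refine le_trans (Fintype.card_subtype_le _) ?_
      simp
    have hsr : (s : ℝ) ≤ 2 ^ ((1 - ε) * n) := by
      have h1 : (s : ℝ) * 2 ^ (ε * n) < 2 ^ n := by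
        refine lt_of_lt_of_le hb ?_
        exact_mod_cast hbn
      rw [← pow_split (ε := ε) n] at h1
      have h2 : (0 : ℝ) < 2 ^ (ε * n) := by positivity
      exact le_of_lt (lt_of_mul_lt_mul_right h1 h2.le)
    have hsn : s ≤ 2 ^ n := le_two_pow hε0 hsr
    -- a point outside of the exceptions
    obtain ⟨x, hxθ, hxE⟩ : ∃ x : Fin n → Bool, h o (SatBy x) < θ ∧ x ∉ EE e r w h (o + 1) := by
      by_contra hcon
      push Not at hcon
      have hsub : (univ.filter fun x : Fin n → Bool => h o (SatBy x) < θ) ⊆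
          EE e r w h (o + 1) := by
        intro x hx
        rw [mem_filter] at hx
        exact hcon x hx.2
      have hcard : Nat.card {x : Fin n → Bool // h o (SatBy x) < θ} ≤
          (o + 1) * tau n r w d s₀ := by
        rw [Nat.card_eq_fintype_card, Fintype.card_subtype]
        exact (card_le_card hsub).trans (hEE (o + 1))
      have hcr : (Nat.card {x : Fin n → Bool // h o (SatBy x) < θ} : ℝ) ≤
          ((o + 1) * tau n r w d s₀ : ℕ) := by exact_mod_cast hcard
      have h1 : ((o + 1 : ℕ) : ℝ) ≤ s := by exact_mod_cast ho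
      have h2 := hP.tau4
      have h3 : (((o + 1) * tau n r w d s₀ : ℕ) : ℝ) ≤ s * 2 ^ (ε * n) := by
        push_cast
        push_cast at h1
        have h4 : (0 : ℝ) ≤ tau n r w d s₀ := Nat.cast_nonneg _
        apply mul_le_mul h1 _ h4 (Nat.cast_nonneg _)
        linarith
      linarith
    have hEEs : EE e r w h (o + 1) = EE e r w h o ∪ univ.filter fun x => ∃ a : ℝ,
        x ∈ Err e r w (BB (EE e r w h o) (h o) a) := rfl
    rw [hEEs, mem_union, not_or, mem_filter, not_and] at hxE
    have hxB : x ∈ BB (EE e r w h o) (h o) θ := by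
      unfold BB
      rw [mem_filter]
      exact ⟨mem_univ _, hxE.1, hxθ⟩
    have hxErr : x ∉ Err e r w (BB (EE e r w h o) (h o) θ) := fun hx =>
      hxE.2 (mem_univ _) ⟨θ, hx⟩
    obtain ⟨A, hA, hAK⟩ : ∃ A : Finset (Fin n), A.card < w ∧
        (A, x) ∈ Ker e r w (BB (EE e r w h o) (h o) θ) := by
      by_contra hcon
      push Not at hcon
      apply hxErr
      unfold Err
      rw [mem_filter]
      exact ⟨hxB, hcon⟩
    have hall : ∀ F : Fin m → U M k, θ ≤ h o (Set.range (cf e F)) →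
        (∃ i, i < s ∧ Bad e q (KC e r w h i) F) ∨ ∃ j, Ins e (A, x) (F j) := by
      intro F hF
      by_cases hcon : ∃ i, i < s ∧ Bad e q (KC e r w h i) F
      · exact Or.inl hcon
      · exact Or.inr ((hPC' F hcon).2 θ hF (A, x) hAK)
    have hhit := (hHIT e w s₀ hH1 (A, x) hA).2 m
    have ha : Nat.card {F : {F : Fin m → U M k // Gap e ε F} //
        θ ≤ h o (Set.range (cf e F.1))} ≤ s * X + m * s₀ * (M * 2 ^ k) ^ (m - 1) := by
      calc _ ≤ Nat.card {F : Fin m → U M k // (∃ i, i < s ∧ Bad e q (KC e r w h i) F) ∨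
              ∃ j, Ins e (A, x) (F j)} := by
            refine Nat.card_le_card_of_injective
              (fun F : {F : {F : Fin m → U M k // Gap e ε F} // θ ≤ h o (Set.range (cf e F.1))} =>
                (⟨F.1.1, hall F.1.1 F.2⟩ :
                  {F : Fin m → U M k // (∃ i, i < s ∧ Bad e q (KC e r w h i) F) ∨
                    ∃ j, Ins e (A, x) (F j)})) ?_
            intro a b hab
            exact Subtype.ext (Subtype.ext (congrArg (fun z : {F : Fin m → U M k //
              (∃ i, i < s ∧ Bad e q (KC e r w h i) F) ∨ ∃ j, Ins e (A, x) (F j)} => z.1) hab))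
        _ ≤ _ := card_or _ _
        _ ≤ _ := Nat.add_le_add hbad hhit
    have h1 := hXb hsn
    have h2 := hP.hit
    have h3 : t ≤ 2 ^ t := Nat.lt_two_pow_self.le
    have h4 : 4 * (t * (s * X)) ≤ Um := le_trans (by gcongr) h1
    have h5 : t * Nat.card {F : {F : Fin m → U M k // Gap e ε F} //
        θ ≤ h o (Set.range (cf e F.1))} ≤ t * (s * X) + t * (m * s₀ * (M * 2 ^ k) ^ (m - 1)) := by
      rw [← Nat.mul_add]
      exact Nat.mul_le_mul_left _ ha
    rw [← hUm] at h2
    omega

end Pool.Agent.H53.MC
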