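import Pool.Agent.H53.MC.Targets

set_option autoImplicit false

namespace Pool.Agent.H53.MC

open Finset

lemma Few_mono {ε ε' : ℝ} (h : ε' ≤ ε) {n t s b a N : ℕ} (hf : Few ε' n t s b a N) :
    Few ε n t s b a N := by
  have h2 : (1:ℝ) ≤ 2 := by norm_num
  have hn : (0:ℝ) ≤ n := Nat.cast_nonneg _
  refine ⟨fun h1 h2' => hf.1 (h1.trans ?_) h2', fun h1 => hf.2 (lt_of_le_of_lt ?_ h1)⟩
  · exact Real.rpow_le_rpow_of_exponent_le h2 (by nlinarith)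
  · exact mul_le_mul_of_nonneg_left (Real.rpow_le_rpow_of_exponent_le h2 (by nlinarith))
      (Nat.cast_nonneg _)

/-- The statement for one `ε`. -/
def Main1 (ε : ℝ) : Prop :=
  ∃ C : ℕ, ∀ n t : ℕ, C ≤ n → n ≤ t → C * Nat.log 2 t ≤ n →
    ∃ (ι : Type) (_ : Fintype ι) (k m : ℕ) (F : ι → Fin m → Clause n),
      Nonempty ι ∧ k ≤ C * Nat.log 2 t ∧ 0 < m ∧ m ≤ t ^ C ∧
      (∀ i j, Width k (F i j)) ∧
      (∀ i x, (1 - ε) * m / 2 ^ k ≤ (Nat.card {j // Falsified (F i j) x} : ℝ)) ∧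
      (∀ (𝓛 : Finset (Line n)) (L : Line n),
        Few ε n t 𝓛.card (Nat.card {x // x ∉ L}) (Nat.card {i // Derives (F i) 𝓛 t L})
          (Nat.card ι)) ∧
      ∀ (s : ℕ) (h : ℕ → Set (Clause n) → ℝ), Circuit t s h → ∀ o, o < s → ∀ θ : ℝ,
        Few ε n t s (Nat.card {x // h o (SatBy x) < θ})
          (Nat.card {i // θ ≤ h o (Set.range (F i))}) (Nat.card ι)

lemma Main1_mono {ε ε' : ℝ} (h : ε' ≤ ε) (hm : Main1 ε') : Main1 ε := by
  obtain ⟨C, hC⟩ := hm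
  refine ⟨C, fun n t h1 h2 h3 => ?_⟩
  obtain ⟨ι, hι, k, m, F, hne, hk, hm0, hm, hW, hgap, hL, hCi⟩ := hC n t h1 h2 h3
  refine ⟨ι, hι, k, m, F, hne, hk, hm0, hm, hW, fun i x => le_trans ?_ (hgap i x),
    fun 𝓛 L => Few_mono h (hL 𝓛 L), fun s g hg o ho θ => Few_mono h (hCi s g hg o ho θ)⟩
  gcongr

theorem pf_ASM (hCHE : T_CHE) (hEXH : T_EXH) (hNUM : T_NUM) (hAL : T_AL) (hAC : T_AC)
    (hTOC : T_TOC) : T_ASM := by
  classical
  have key : ∀ ε : ℝ, 0 < ε → ε < 1 → Main1 ε := by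
    intro ε hε hε1
    obtain ⟨D₀, hD₀⟩ := hCHE ε hε hε1
    obtain ⟨C, hC⟩ := hNUM ε D₀ hε hε1
    refine ⟨C, fun n t h1 h2 h3 => ?_⟩
    obtain ⟨D, k, M, w, d, s₀, r, q, δ, z, hD, hPar, hk, hm0, hm, hδ, hw, hkd, hM, hz⟩ :=
      hC n t h1 h2 h3
    obtain ⟨e, hinj, hH1⟩ := hEXH δ z n M k w s₀ hδ hPar.k1 hw hkd hM hz
    have hhalf := hD₀ D t n M k e hD hPar.M1 hPar.t1 hPar.nt
    have hpos : 0 < (M * 2 ^ k) ^ (D * t * 2 ^ k) :=
      pow_pos (Nat.mul_pos hPar.M1 (pow_pos (by norm_num) _)) _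
    have hcard : 0 < Nat.card {F : Fin (D * t * 2 ^ k) → U M k // Gap e ε F} := by omega
    have hne : Nonempty {F : Fin (D * t * 2 ^ k) → U M k // Gap e ε F} :=
      (Nat.card_pos_iff.1 hcard).1
    refine ⟨{F : Fin (D * t * 2 ^ k) → U M k // Gap e ε F}, inferInstance, k, D * t * 2 ^ k,
      fun i => cf e i.1, hne, hk, hm0, hm, ?_, ?_, ?_, ?_⟩
    · intro i j
      exact (hTOC e hinj (i.1 j)).2
    · intro i x
      have h := i.2 x
      have hc : Nat.card {j // Falsified (cf e i.1 j) x} = Nat.card {j // Viol e (i.1 j) x} := by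
        refine Nat.card_congr (Equiv.subtypeEquivRight fun j => ?_)
        exact (hTOC e hinj (i.1 j)).1 x
      rw [hc]
      exact_mod_cast h
    · intro 𝓛 L
      exact hAL e ε t _ w d s₀ r q hε hε1 hinj hH1 hPar hhalf 𝓛 L
    · intro s h hh o ho θ
      exact hAC e ε t _ w d s₀ r q hε hε1 hinj hH1 hPar hhalf s h hh o ho θ
  intro ε hε
  have hM : Main1 ε := by
    rcases lt_or_ge ε 1 with h | h
    · exact key ε hε h
    · exact Main1_mono (by linarith : (1/2:ℝ) ≤ ε) (key (1/2) (by norm_num) (by norm_num))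
  exact hM

end Pool.Agent.H53.MC
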