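import Pool.Agent.H53.MC.Targets

open Finset

namespace Pool.Agent.H53.MC

theorem exist_tuple {G α : Type*} [Fintype G] [DecidableEq G] [Nonempty G] (A : Finset α)
    (P : α → G → Prop) [∀ a, DecidablePred (P a)] (M s : ℕ) (ρ : ℝ)
    (hρ : ∀ a ∈ A, ((univ.filter (P a)).card : ℝ) ≤ ρ * Fintype.card G)
    (h : (A.card : ℝ) * (M.choose (s + 1)) * ρ ^ (s + 1) < 1) :
    ∃ g : Fin M → G, ∀ a ∈ A, (univ.filter (fun j => P a (g j))).card ≤ s := by
  classical
  by_contra hcon
  push Not at hcon
  let Bd : Finset (Fin M → G) :=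
    A.biUnion fun a => (powersetCard (s + 1) (univ : Finset (Fin M))).biUnion fun J =>
      Fintype.piFinset fun j => if j ∈ J then univ.filter (P a) else univ
  have hall : (univ : Finset (Fin M → G)) ⊆ Bd := by
    intro g _
    obtain ⟨a, ha, hc⟩ := hcon g
    obtain ⟨J, hJ, hJc⟩ := exists_subset_card_eq (Nat.succ_le_of_lt hc)
    simp only [Bd, mem_biUnion, mem_powersetCard]
    refine ⟨a, ha, J, ⟨subset_univ _, hJc⟩, ?_⟩
    rw [Fintype.mem_piFinset]
    intro j
    by_cases hj : j ∈ J
    · have := hJ hj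
      simp only [mem_filter, mem_univ, true_and] at this
      simp [hj, this]
    · simp [hj]
  have hcard : ((Fintype.card G : ℝ)) ^ M ≤
      (A.card : ℝ) * (M.choose (s + 1)) * (ρ ^ (s + 1) * (Fintype.card G : ℝ) ^ M) := by
    have h1 : (Fintype.card G) ^ M ≤ Bd.card := by
      have := card_le_card hall
      simpa [Fintype.card_fun, Fintype.card_fin] using this
    have h2 : (Bd.card : ℝ) ≤ ∑ a ∈ A, ∑ J ∈ powersetCard (s + 1) (univ : Finset (Fin M)),
        ((Fintype.piFinset fun j => if j ∈ J then univ.filter (P a) else univ).card : ℝ) := by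
      have h3 : Bd.card ≤ ∑ a ∈ A, ∑ J ∈ powersetCard (s + 1) (univ : Finset (Fin M)),
          (Fintype.piFinset fun j => if j ∈ J then univ.filter (P a) else univ).card :=
        le_trans card_biUnion_le (sum_le_sum fun a _ => card_biUnion_le)
      exact_mod_cast h3
    have h4 : ∀ a ∈ A, ∀ J ∈ powersetCard (s + 1) (univ : Finset (Fin M)),
        ((Fintype.piFinset fun j => if j ∈ J then univ.filter (P a) else univ).card : ℝ) ≤
          ρ ^ (s + 1) * (Fintype.card G : ℝ) ^ M := by
      intro a ha J hJ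
      rw [mem_powersetCard] at hJ
      rw [Fintype.card_piFinset]
      push_cast
      have hfac : ∀ j : Fin M, (((if j ∈ J then univ.filter (P a) else univ : Finset G).card : ℕ) : ℝ)
          ≤ (if j ∈ J then ρ else 1) * (Fintype.card G : ℝ) := by
        intro j
        by_cases hj : j ∈ J
        · simpa [hj] using hρ a ha
        · simp [hj, Finset.card_univ]
      calc ∏ j : Fin M, (((if j ∈ J then univ.filter (P a) else univ : Finset G).card : ℕ) : ℝ)
          ≤ ∏ j : Fin M, (if j ∈ J then ρ else 1) * (Fintype.card G : ℝ) :=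
            prod_le_prod (fun _ _ => by positivity) (fun j _ => hfac j)
        _ = (∏ j : Fin M, (if j ∈ J then ρ else 1)) * (Fintype.card G : ℝ) ^ M := by
            rw [prod_mul_distrib]; simp
        _ = ρ ^ (s + 1) * (Fintype.card G : ℝ) ^ M := by
            congr 1
            rw [prod_ite, prod_const, prod_const_one, mul_one]
            congr 1
            rw [← hJ.2]; congr 1; ext j; simp
    calc ((Fintype.card G : ℝ)) ^ M ≤ (Bd.card : ℝ) := by exact_mod_cast h1
      _ ≤ _ := h2
      _ ≤ ∑ a ∈ A, ∑ J ∈ powersetCard (s + 1) (univ : Finset (Fin M)),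
          (ρ ^ (s + 1) * (Fintype.card G : ℝ) ^ M) :=
          sum_le_sum fun a ha => sum_le_sum fun J hJ => h4 a ha J hJ
      _ = _ := by
          rw [sum_const, sum_const, card_powersetCard, nsmul_eq_mul, nsmul_eq_mul]
          simp only [card_univ, Fintype.card_fin]
          ring
  have hpos : (0 : ℝ) < (Fintype.card G : ℝ) ^ M := by
    have : 0 < Fintype.card G := Fintype.card_pos
    positivity
  have : (A.card : ℝ) * (M.choose (s + 1)) * (ρ ^ (s + 1) * (Fintype.card G : ℝ) ^ M) <
      (Fintype.card G : ℝ) ^ M := by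
    calc _ = ((A.card : ℝ) * (M.choose (s + 1)) * ρ ^ (s + 1)) * (Fintype.card G : ℝ) ^ M := by ring
      _ < 1 * (Fintype.card G : ℝ) ^ M := by
          apply mul_lt_mul_of_pos_right h hpos
      _ = _ := one_mul _
  linarith


/-- The variable number `a` of the group `i`. -/
def pos {n k : ℕ} (i : Fin k) (a : Fin (n / k)) : Fin n :=
  ⟨i.1 * (n / k) + a.1, by
    have h1 : i.1 + 1 ≤ k := i.2
    have h2 : (i.1 + 1) * (n / k) ≤ k * (n / k) := Nat.mul_le_mul_right _ h1
    have h3 : k * (n / k) ≤ n := Nat.mul_div_le n k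
    have h4 := a.2
    nlinarith⟩

theorem pos_inj {n k : ℕ} {i i' : Fin k} {a a' : Fin (n / k)} (h : pos i a = pos i' a') :
    i = i' ∧ a = a' := by
  have h0 : i.1 * (n / k) + a.1 = i'.1 * (n / k) + a'.1 := by
    have := congrArg Fin.val h
    simpa [pos] using this
  have ha := a.2
  have ha' := a'.2
  have hi : i.1 = i'.1 := by
    rcases lt_trichotomy i.1 i'.1 with h1 | h1 | h1
    · exfalso
      have : (i.1 + 1) * (n / k) ≤ i'.1 * (n / k) := Nat.mul_le_mul_right _ h1
      nlinarith
    · exact h1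
    · exfalso
      have : (i'.1 + 1) * (n / k) ≤ i.1 * (n / k) := Nat.mul_le_mul_right _ h1
      nlinarith
  refine ⟨Fin.ext hi, Fin.ext ?_⟩
  rw [hi] at h0
  omega

theorem pf_EXH : T_EXH := by
  classical
  intro δ z n M k w s₀ hδ hk hw h4 hM hz
  have hk0 : (1 : ℝ) ≤ k := by exact_mod_cast hk
  have hn0 : (0 : ℝ) < n := by
    by_contra hneg
    have : (n : ℝ) = 0 := le_antisymm (not_lt.1 hneg) (Nat.cast_nonneg n)
    rw [this] at h4
    linarith
  have hδ1 : δ ≤ 1 := by
    by_contra hneg
    push Not at hneg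
    have h1 : (1 - δ) * n < 0 := mul_neg_of_neg_of_pos (by linarith) hn0
    have h2 : (0 : ℝ) ≤ w := Nat.cast_nonneg w
    linarith
  have h4n : 4 * k ≤ n := by
    have : (4 * k : ℝ) ≤ n := by nlinarith
    exact_mod_cast this
  set l : ℕ := n / k with hl
  have hl1 : 1 ≤ l := by
    rw [hl]
    exact (Nat.one_le_div_iff (by omega)).2 (by omega)
  have hl0 : (0 : ℝ) < l := by exact_mod_cast hl1
  have hkl : (l : ℝ) * k ≤ n := by
    have : l * k ≤ n := Nat.div_mul_le_self n k
    exact_mod_cast this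
  have hkl2 : (n : ℝ) - k ≤ l * k := by
    have h1 : n < k * (l + 1) := by
      have := Nat.lt_mul_div_succ n (show 0 < k by omega)
      simpa [hl] using this
    have h2 : (n : ℝ) < k * (l + 1) := by exact_mod_cast h1
    nlinarith
  have : Nonempty (Fin k → Fin (n / k)) := ⟨fun _ => ⟨0, hl1⟩⟩
  obtain ⟨g, hg⟩ := exist_tuple (G := Fin k → Fin (n / k))
    ((univ : Finset (Finset (Fin n))).filter fun A => A.card ≤ w + k)
    (fun A g => ∀ i, pos i (g i) ∈ A) M s₀ (Real.exp (-(δ * k / 2))) (by
      intro A hA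
      have hAc : A.card ≤ w + k := (mem_filter.1 hA).2
      let Ai : Fin k → Finset (Fin (n / k)) := fun i => univ.filter fun a => pos i a ∈ A
      have h1 : (univ.filter fun g : Fin k → Fin (n / k) => ∀ i, pos i (g i) ∈ A) =
          Fintype.piFinset Ai := by
        ext g
        simp [Ai, Fintype.mem_piFinset]
      rw [h1, Fintype.card_piFinset]
      have hsum : ∑ i, (Ai i).card ≤ A.card := by
        rw [← card_sigma]
        refine card_le_card_of_injOn (fun p : (Σ _ : Fin k, Fin (n / k)) => pos p.1 p.2) ?_ ?_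
        · intro p hp
          have := (mem_sigma.1 hp).2
          simpa [Ai] using this
        · intro p _ p' _ hpp
          obtain ⟨h1, h2⟩ := pos_inj hpp
          cases p; cases p'
          simp only at h1 h2
          subst h1; subst h2; rfl
      have hfac : ∀ i, ((Ai i).card : ℝ) ≤ l * Real.exp ((Ai i).card / l - 1) := by
        intro i
        have := Real.add_one_le_exp (((Ai i).card : ℝ) / l - 1)
        have h3 : ((Ai i).card : ℝ) / l ≤ Real.exp (((Ai i).card : ℝ) / l - 1) := by linarith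
        calc ((Ai i).card : ℝ) = l * (((Ai i).card : ℝ) / l) := by field_simp
          _ ≤ _ := mul_le_mul_of_nonneg_left h3 hl0.le
      have hprod : ((∏ i, (Ai i).card : ℕ) : ℝ) ≤ ∏ i, (l * Real.exp ((Ai i).card / l - 1)) := by
        push_cast
        exact prod_le_prod (fun i _ => Nat.cast_nonneg _) (fun i _ => hfac i)
      have hval : ∏ i, ((l : ℝ) * Real.exp ((Ai i).card / l - 1)) =
          (l : ℝ) ^ k * Real.exp ((∑ i, ((Ai i).card : ℝ)) / l - k) := by
        rw [prod_mul_distrib, ← Real.exp_sum]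
        simp [sum_sub_distrib, sum_div]
      have hexp : (∑ i, ((Ai i).card : ℝ)) / l - k ≤ -(δ * k / 2) := by
        have h5 : (∑ i, ((Ai i).card : ℝ)) ≤ w + k := by
          have : ∑ i, (Ai i).card ≤ w + k := le_trans hsum hAc
          exact_mod_cast this
        have h6 : (∑ i, ((Ai i).card : ℝ)) - l * k ≤ -(δ * n / 2) := by
          nlinarith
        have h7 : (∑ i, ((Ai i).card : ℝ)) / l - k = ((∑ i, ((Ai i).card : ℝ)) - l * k) / l := by
          field_simp
        rw [h7, div_le_iff₀ hl0]
        have h8 : δ * (l * k) ≤ δ * n := mul_le_mul_of_nonneg_left hkl hδ.le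
        nlinarith
      calc ((∏ i, (Ai i).card : ℕ) : ℝ) ≤ _ := hprod
        _ = _ := hval
        _ ≤ (l : ℝ) ^ k * Real.exp (-(δ * k / 2)) :=
            mul_le_mul_of_nonneg_left (Real.exp_le_exp.2 hexp) (by positivity)
        _ = _ := by
            simp [hl, mul_comm]) (by
      have hA : (((univ : Finset (Finset (Fin n))).filter fun A => A.card ≤ w + k).card : ℝ) ≤
          2 ^ (n : ℝ) := by
        have h1 : ((univ : Finset (Finset (Fin n))).filter fun A => A.card ≤ w + k).card ≤ 2 ^ n := by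
          refine le_trans (card_filter_le _ _) ?_
          simp
        rw [Real.rpow_natCast]
        exact_mod_cast h1
      have hC : ((M.choose (s₀ + 1) : ℕ) : ℝ) ≤ (M : ℝ) ^ (s₀ + 1) := by
        exact_mod_cast Nat.choose_le_pow M (s₀ + 1)
      have hexp0 : (0 : ℝ) ≤ Real.exp (-(δ * k / 2)) := (Real.exp_pos _).le
      calc _ ≤ (2 : ℝ) ^ (n : ℝ) * (M : ℝ) ^ (s₀ + 1) * Real.exp (-(δ * k / 2)) ^ (s₀ + 1) := by
            gcongr
        _ = (2 : ℝ) ^ (n : ℝ) * ((M : ℝ) * Real.exp (-(δ * k / 2))) ^ (s₀ + 1) := by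
            rw [mul_pow]; ring
        _ ≤ (2 : ℝ) ^ (n : ℝ) * ((2 : ℝ) ^ (-z)) ^ (s₀ + 1) := by
            gcongr
        _ = (2 : ℝ) ^ ((n : ℝ) - z * (s₀ + 1)) := by
            rw [← Real.rpow_natCast, ← Real.rpow_mul (by norm_num), ← Real.rpow_add (by norm_num)]
            congr 1
            push_cast
            ring
        _ < (2 : ℝ) ^ (0 : ℝ) := Real.rpow_lt_rpow_of_exponent_lt (by norm_num) (by linarith)
        _ = 1 := Real.rpow_zero 2)
  refine ⟨fun j i => pos i (g j i), ?_, ?_⟩
  · intro j i i' hii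
    exact (pos_inj hii).1
  · intro A hA
    have := hg A (mem_filter.2 ⟨mem_univ _, hA⟩)
    unfold cnt
    refine le_trans (le_of_eq ?_) this
    congr 1
    ext j
    simp [scope, subset_iff]

end Pool.Agent.H53.MC
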