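import Pool.Agent.H53.MC.Targets

/-!
MP_c62aed_lc, MonotoneSETH, row KM: the kernels of a chain.
-/

set_option autoImplicit false

namespace Pool.Agent.H53.MC

open Finset

theorem pf_KM : T_KM := by
  intro n M k e r w
  have h1 : ∀ B B' : Finset (Fin n → Bool), B ⊆ B' → Ker e r w B ⊆ Ker e r w B' := by
    intro B B' hB p hp
    exact ⟨hp.1, fun T hT hc => hp.2 T hT fun x hx => hc x (hB hx)⟩
  refine ⟨h1, fun h i => ⟨?_, ?_⟩⟩
  · have hmono : ∀ a b : ℝ, a ≤ b →
        BB (EE e r w h i) (h i) a ⊆ BB (EE e r w h i) (h i) b := by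
      intro a b hab x hx
      unfold BB at hx ⊢
      rw [mem_filter] at hx ⊢
      exact ⟨hx.1, hx.2.1, hx.2.2.trans_le hab⟩
    rintro K ⟨a, rfl⟩ K' ⟨b, rfl⟩ _
    rcases le_total a b with hab | hab
    · exact Or.inl (h1 _ _ (hmono a b hab))
    · exact Or.inr (h1 _ _ (hmono b a hab))
  · rintro K ⟨a, rfl⟩ p hp
    exact hp.1

end Pool.Agent.H53.MC
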