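import Pool.Agent.H53.MC.Targets

set_option autoImplicit false

namespace Pool.Agent.H53.MC

open Finset

namespace NUM

theorem exp_ge_two_pow (a : ℕ) : (2 : ℝ) ^ a ≤ Real.exp a := by
  have h : (2 : ℝ) ≤ Real.exp 1 := by
    have := Real.add_one_le_exp (1 : ℝ)
    linarith
  calc (2 : ℝ) ^ a ≤ Real.exp 1 ^ a := pow_le_pow_left₀ (by norm_num) h a
    _ = Real.exp a := by rw [← Real.exp_nat_mul, mul_one]

theorem exp_part (D N K l t M : ℕ) (hN : 1 ≤ N) (hK : K = 2 * N * (D + 11 + 6 * N ^ 2))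
    (hM : M = 8 * D * t ^ 4) (ht2 : t < 2 ^ (l + 1)) (hl1 : 1 ≤ l) :
    (M : ℝ) * Real.exp (-(1 / (N : ℝ) * ((K * l : ℕ) : ℝ) / 2)) ≤
      (2 : ℝ) ^ (-((N * (6 * N * l) : ℝ))) := by
  have hNR : (N : ℝ) ≠ 0 := by
    have : N ≠ 0 := by omega
    exact_mod_cast this
  have c1 : (1 / (N : ℝ) * ((K * l : ℕ) : ℝ) / 2) = (((D + 11 + 6 * N ^ 2) * l : ℕ) : ℝ) := by
    have : K * l = 2 * N * ((D + 11 + 6 * N ^ 2) * l) := by rw [hK]; ring
    rw [this]
    generalize (D + 11 + 6 * N ^ 2) * l = a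
    push_cast
    field_simp
  rw [c1, Real.exp_neg]
  have c2 := exp_ge_two_pow ((D + 11 + 6 * N ^ 2) * l)
  have c3 : (M : ℝ) ≤ 2 ^ ((D + 11) * l) := by
    have h5 : D ≤ 2 ^ D := Nat.le_of_lt Nat.lt_two_pow_self
    have h6 : D + 7 + 4 * l ≤ (D + 11) * l := by
      calc D + 7 + 4 * l ≤ (D + 7) * l + 4 * l :=
            Nat.add_le_add_right (Nat.le_mul_of_pos_right _ hl1) _
        _ = (D + 11) * l := by ring
    have : M ≤ 2 ^ ((D + 11) * l) := by
      rw [hM]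
      calc 8 * D * t ^ 4 ≤ 8 * 2 ^ D * (2 ^ (l + 1)) ^ 4 :=
            Nat.mul_le_mul (Nat.mul_le_mul_left 8 h5) (Nat.pow_le_pow_left ht2.le 4)
        _ = 2 ^ (D + 7 + 4 * l) := by ring
        _ ≤ 2 ^ ((D + 11) * l) := Nat.pow_le_pow_right (by norm_num) h6
    exact_mod_cast this
  have c4 : (2 : ℝ) ^ (-(N * (6 * N * l) : ℝ)) = (2 ^ (6 * N ^ 2 * l))⁻¹ := by
    rw [Real.rpow_neg (by norm_num)]
    congr 1
    rw [← Real.rpow_natCast]
    congr 1
    push_cast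
    ring
  rw [c4]
  have h0 : (2 : ℝ) ^ ((D + 11) * l) ≠ 0 := by positivity
  have h7 : (2 : ℝ) ^ ((D + 11 + 6 * N ^ 2) * l) = 2 ^ ((D + 11) * l) * 2 ^ (6 * N ^ 2 * l) := by
    rw [← pow_add]
    congr 1
    ring
  have h8 : (0 : ℝ) < 2 ^ ((D + 11 + 6 * N ^ 2) * l) := by positivity
  calc (M : ℝ) * (Real.exp (((D + 11 + 6 * N ^ 2) * l : ℕ) : ℝ))⁻¹
      ≤ 2 ^ ((D + 11) * l) * ((2 : ℝ) ^ ((D + 11 + 6 * N ^ 2) * l))⁻¹ := by
        refine mul_le_mul c3 (inv_anti₀ h8 c2) ?_ ?_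
        · exact inv_nonneg.mpr (Real.exp_pos _).le
        · positivity
    _ = (2 ^ (6 * N ^ 2 * l))⁻¹ := by
        rw [h7, mul_inv, ← mul_assoc, mul_inv_cancel₀ h0, one_mul]

end NUM

theorem pf_NUM : T_NUM := by
  intro ε D₀ hε hε1
  obtain ⟨N, hN2, hNε⟩ : ∃ N : ℕ, 2 ≤ N ∧ 4 ≤ ε * N := by
    obtain ⟨N₀, hN₀⟩ := exists_nat_ge (4 / ε)
    refine ⟨N₀ + 2, by omega, ?_⟩
    rw [div_le_iff₀ hε] at hN₀
    push_cast
    nlinarith
  obtain ⟨D, hD⟩ : ∃ D, D = D₀ + 1 := ⟨_, rfl⟩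
  obtain ⟨K, hK⟩ : ∃ K, K = 2 * N * (D + 11 + 6 * N ^ 2) := ⟨_, rfl⟩
  have hD1 : 1 ≤ D := by omega
  have hK6 : 6 ≤ K := by
    rw [hK]
    nlinarith
  refine ⟨4 * K * N + D + 1 + K + 9 * N + 4, ?_⟩
  intro n t hCn hnt hCl
  obtain ⟨C, hC⟩ : ∃ C, C = 4 * K * N + D + 1 + K + 9 * N + 4 := ⟨_, rfl⟩
  rw [← hC] at hCn hCl ⊢
  obtain ⟨l, hl⟩ : ∃ l, l = Nat.log 2 t := ⟨_, rfl⟩
  rw [← hl] at hCl ⊢
  have hn4 : 4 ≤ n := by omega
  have ht4 : 4 ≤ t := by omega
  have hl1 : 1 ≤ l := by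
    rw [hl]
    exact Nat.log_pos (by norm_num) (by omega)
  have ht1 : 2 ^ l ≤ t := by
    rw [hl]
    exact Nat.pow_log_le_self 2 (by omega)
  have ht2 : t < 2 ^ (l + 1) := by
    rw [hl]
    exact Nat.lt_pow_succ_log_self (by norm_num) t
  have hKl : 6 * l ≤ K * l := Nat.mul_le_mul_right l hK6
  have h4KN : 4 * (K * l) * N ≤ n := by
    calc 4 * (K * l) * N = (4 * K * N) * l := by ring
      _ ≤ C * l := Nat.mul_le_mul_right l (by omega)
      _ ≤ n := hCl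
  have h9N : 9 * l * N ≤ n := by
    calc 9 * l * N = (9 * N) * l := by ring
      _ ≤ C * l := Nat.mul_le_mul_right l (by omega)
      _ ≤ n := hCl
  have hkn : K * l ≤ n := by
    calc K * l ≤ C * l := Nat.mul_le_mul_right l (by omega)
      _ ≤ n := hCl
  have h2k : 64 ≤ 2 ^ (K * l) := by
    calc 64 = 2 ^ 6 := by norm_num
      _ ≤ 2 ^ (K * l) := Nat.pow_le_pow_right (by norm_num) (by nlinarith)
  have htk : 12 * t < 2 ^ (K * l) := by
    calc 12 * t < 12 * 2 ^ (l + 1) := by omega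
      _ ≤ 2 ^ 4 * 2 ^ (l + 1) := Nat.mul_le_mul_right _ (by norm_num)
      _ = 2 ^ (l + 5) := by rw [← pow_add]; congr 1; ring
      _ ≤ 2 ^ (K * l) := Nat.pow_le_pow_right (by norm_num) (by omega)
  have hs0 : n / (N * (6 * N * l)) ≤ t := le_trans (Nat.div_le_self _ _) hnt
  have hm1 : 0 < D * t * 2 ^ (K * l) := by positivity
  have hNR : (0 : ℝ) < N := by
    have : (2 : ℝ) ≤ N := by exact_mod_cast hN2
    linarith
  have hd : 1 ≤ 6 * N * l := by nlinarith [Nat.mul_le_mul hN2 hl1]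
  have hdR : (0 : ℝ) < 6 * N * l := by
    have : (1 : ℝ) ≤ l := by exact_mod_cast hl1
    positivity
  obtain ⟨s₀, hs⟩ : ∃ s₀, s₀ = n / (N * (6 * N * l)) := ⟨_, rfl⟩
  obtain ⟨m, hm⟩ : ∃ m, m = D * t * 2 ^ (K * l) := ⟨_, rfl⟩
  obtain ⟨M, hM⟩ : ∃ M, M = 8 * D * t ^ 4 := ⟨_, rfl⟩
  obtain ⟨w, hw⟩ : ∃ w, w = n - (n / N + 1) := ⟨_, rfl⟩
  have hnN : n / N ≤ n / 2 := Nat.div_le_div_left hN2 (by norm_num)
  have hnwR : ((n / N : ℕ) : ℝ) ≤ n / N := Nat.cast_div_le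
  have hw1 : 1 ≤ w := by omega
  have hwn : w ≤ n := by rw [hw]; exact Nat.sub_le _ _
  have hnw : n - w = n / N + 1 := by
    rw [hw]
    exact Nat.sub_sub_self (by omega)
  have hs' : s₀ ≤ t := by rw [hs]; exact hs0
  have hsm : 8 * (s₀ * m) ≤ M * 2 ^ (K * l) := by
    rw [hm, hM]
    calc 8 * (s₀ * (D * t * 2 ^ (K * l))) ≤ 8 * (t * (D * t * 2 ^ (K * l))) := by gcongr
      _ = 8 * D * t ^ 2 * 2 ^ (K * l) := by ring
      _ ≤ 8 * D * t ^ 4 * 2 ^ (K * l) := by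
          gcongr
          · omega
          · norm_num
  refine ⟨D, K * l, M, w, 6 * N * l, s₀, 2 ^ (2 * l + 4), 3 * t, 1 / N, N * (6 * N * l),
    by omega, ?_, ?_, hm1, ?_, ?_, ?_, ?_, ?_, ?_⟩
  · rw [← hm]
    refine ⟨by omega, hnt, by nlinarith, hkn, ?_, hd, hw1, hwn, by omega, ?_, ?_, ?_, ?_, ?_, ?_⟩
    · rw [hM]
      exact Nat.succ_le_of_lt (by positivity)
    · rw [hm]
      calc 3 * t + 1 ≤ 64 * t := by omega
        _ ≤ 2 ^ (K * l) * t := Nat.mul_le_mul_right t h2k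
        _ ≤ D * (2 ^ (K * l) * t) := Nat.le_mul_of_pos_left _ (by omega)
        _ = D * t * 2 ^ (K * l) := by ring
    · calc t + t * (3 * t) ≤ 4 * (t * t) := by nlinarith
        _ ≤ 4 * (2 ^ (l + 1) * 2 ^ (l + 1)) := by gcongr
        _ = 2 ^ (2 * l + 4) := by ring
    · -- tau4
      have e1 : (4 * (tau n (2 ^ (2 * l + 4)) w (6 * N * l) s₀ : ℕ) : ℝ) =
          (2 : ℝ) ^ ((2 + (2 * l + 4) * (w / (6 * N * l) + 1) + 6 * N * l * s₀ + (n / N + 1) :
            ℕ) : ℝ) := by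
        have e0 : (2 : ℝ) ^ (2 + (2 * l + 4) * (w / (6 * N * l) + 1) + 6 * N * l * s₀ +
            (n / N + 1)) = 2 ^ 2 * (2 ^ (2 * l + 4)) ^ (w / (6 * N * l) + 1) *
              2 ^ (6 * N * l * s₀) * 2 ^ (n / N + 1) := by
          rw [pow_add (2 : ℝ) (2 + (2 * l + 4) * (w / (6 * N * l) + 1) + 6 * N * l * s₀) (n / N + 1),
            pow_add (2 : ℝ) (2 + (2 * l + 4) * (w / (6 * N * l) + 1)) (6 * N * l * s₀),
            pow_add (2 : ℝ) 2 ((2 * l + 4) * (w / (6 * N * l) + 1)),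
            pow_mul (2 : ℝ) (2 * l + 4) (w / (6 * N * l) + 1)]
        rw [Real.rpow_natCast, e0]
        unfold tau
        rw [hnw]
        push_cast
        ring
      rw [e1]
      apply Real.rpow_le_rpow_of_exponent_le (by norm_num)
      have a1 : ((w / (6 * N * l) : ℕ) : ℝ) ≤ n / (6 * N * l) := by
        refine le_trans Nat.cast_div_le ?_
        push_cast
        have : (w : ℝ) ≤ n := by exact_mod_cast hwn
        gcongr
      have a2 : (s₀ : ℝ) ≤ n / (N * (6 * N * l)) := by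
        rw [hs]
        refine le_trans Nat.cast_div_le ?_
        push_cast
        exact le_refl _
      have hl1R : (1 : ℝ) ≤ l := by exact_mod_cast hl1
      have a4 : (2 * (l : ℝ) + 4) * (((w / (6 * N * l) : ℕ) : ℝ) + 1) ≤ n / N + 6 * l := by
        calc (2 * (l : ℝ) + 4) * (((w / (6 * N * l) : ℕ) : ℝ) + 1)
            ≤ (6 * l) * (n / (6 * N * l) + 1) := by
              apply mul_le_mul (by linarith) (by linarith) (by positivity) (by positivity)
          _ = n / N + 6 * l := by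
              field_simp
      have a5 : (6 * N * l * s₀ : ℝ) ≤ n / N := by
        calc (6 * N * l * s₀ : ℝ) ≤ 6 * N * l * (n / (N * (6 * N * l))) := by gcongr
          _ = n / N := by field_simp
      have a6 : (9 * l : ℝ) ≤ n / N := by
        rw [le_div_iff₀ hNR]
        exact_mod_cast h9N
      have a7 : (4 : ℝ) * (n / N) ≤ ε * n := by
        rw [← mul_div_assoc, div_le_iff₀ hNR]
        have : (0 : ℝ) ≤ n := Nat.cast_nonneg n
        nlinarith
      push_cast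
      linarith
    · -- cov
      have e2 : (2 : ℕ) ^ n = 2 ^ (K * l) * 2 ^ (n - K * l) := by
        rw [← pow_add]
        congr 1
        omega
      rw [e2]
      have : 0 < 2 ^ (n - K * l) := by positivity
      calc 4 * (3 * t * 2 ^ (n - K * l)) = (12 * t) * 2 ^ (n - K * l) := by ring
        _ < 2 ^ (K * l) * 2 ^ (n - K * l) := Nat.mul_lt_mul_of_pos_right htk this
    · -- bad
      have hqm : 3 * t + 1 ≤ m := by
        rw [hm]
        calc 3 * t + 1 ≤ 64 * t := by omega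
          _ ≤ 2 ^ (K * l) * t := Nat.mul_le_mul_right t h2k
          _ ≤ D * (2 ^ (K * l) * t) := Nat.le_mul_of_pos_left _ (by omega)
          _ = D * t * 2 ^ (K * l) := by ring
      have e3 : (M * 2 ^ (K * l)) ^ m =
          (M * 2 ^ (K * l)) ^ (3 * t + 1) * (M * 2 ^ (K * l)) ^ (m - (3 * t + 1)) := by
        rw [← pow_add]
        congr 1
        omega
      rw [e3, ← mul_assoc]
      apply Nat.mul_le_mul_right
      calc 2 ^ (n + t + 2) * (s₀ * m) ^ (3 * t + 1)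
          ≤ 8 ^ (3 * t + 1) * (s₀ * m) ^ (3 * t + 1) := by
            apply Nat.mul_le_mul_right
            calc 2 ^ (n + t + 2) ≤ 2 ^ (3 * (3 * t + 1)) :=
                  Nat.pow_le_pow_right (by norm_num) (by omega)
              _ = 8 ^ (3 * t + 1) := by rw [pow_mul]; norm_num
        _ = (8 * (s₀ * m)) ^ (3 * t + 1) := (mul_pow _ _ _).symm
        _ ≤ (M * 2 ^ (K * l)) ^ (3 * t + 1) := Nat.pow_le_pow_left hsm _
    · -- hit
      have e4 : (M * 2 ^ (K * l)) ^ m = (M * 2 ^ (K * l)) * (M * 2 ^ (K * l)) ^ (m - 1) := by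
        rw [← pow_succ']
        congr 1
        omega
      rw [e4]
      calc 4 * (t * (m * s₀ * (M * 2 ^ (K * l)) ^ (m - 1)))
          = (4 * t * (m * s₀)) * (M * 2 ^ (K * l)) ^ (m - 1) := by ring
        _ ≤ (M * 2 ^ (K * l)) * (M * 2 ^ (K * l)) ^ (m - 1) := by
            apply Nat.mul_le_mul_right
            rw [hm, hM]
            calc 4 * t * (D * t * 2 ^ (K * l) * s₀) ≤ 4 * t * (D * t * 2 ^ (K * l) * t) := by
                  gcongr
              _ = 4 * D * t ^ 3 * 2 ^ (K * l) := by ring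
              _ ≤ 8 * D * t ^ 4 * 2 ^ (K * l) := by
                  gcongr
                  · norm_num
                  · omega
                  · norm_num
  · exact Nat.mul_le_mul_right l (by omega)
  · -- size
    have b1 : D ≤ t ^ D := by
      calc D ≤ 2 ^ D := Nat.le_of_lt Nat.lt_two_pow_self
        _ ≤ t ^ D := Nat.pow_le_pow_left (by omega) D
    have b2 : 2 ^ (K * l) ≤ t ^ K := by
      calc 2 ^ (K * l) = (2 ^ l) ^ K := by rw [← pow_mul, mul_comm]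
        _ ≤ t ^ K := Nat.pow_le_pow_left ht1 K
    calc D * t * 2 ^ (K * l) ≤ t ^ D * t * t ^ K := by gcongr
      _ = t ^ (D + 1 + K) := by rw [pow_add, pow_add, pow_one]
      _ ≤ t ^ C := Nat.pow_le_pow_right (by omega) (by omega)
  · positivity
  · -- w
    have hlt : (n : ℝ) / N < ((n / N : ℕ) : ℝ) + 1 := by
      have := Nat.lt_floor_add_one ((n : ℝ) / N)
      rwa [Nat.floor_div_natCast, Nat.floor_natCast] at this
    have hwR : (w : ℝ) = n - (((n / N : ℕ) : ℝ) + 1) := by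
      rw [hw, Nat.cast_sub (by omega)]
      push_cast
      ring
    rw [hwR]
    have : (1 - 1 / (N : ℝ)) * n = n - n / N := by ring
    rw [this]
    linarith
  · -- 4k
    rw [one_div, inv_mul_eq_div, le_div_iff₀ hNR]
    exact_mod_cast h4KN
  · -- exp
    exact NUM.exp_part D N K l t M (by omega) hK hM ht2 hl1
  · -- z
    have hlt : (n : ℝ) / ((N * (6 * N * l) : ℕ) : ℝ) < (s₀ : ℝ) + 1 := by
      have := Nat.lt_floor_add_one ((n : ℝ) / ((N * (6 * N * l) : ℕ) : ℝ))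
      rwa [Nat.floor_div_natCast, Nat.floor_natCast, ← hs] at this
    have hz : (0 : ℝ) < ((N * (6 * N * l) : ℕ) : ℝ) := by
      push_cast
      positivity
    rw [div_lt_iff₀ hz] at hlt
    push_cast at hlt ⊢
    linarith

end Pool.Agent.H53.MC
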