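import Pool.Agent.H53.MC.Targets

set_option autoImplicit false

namespace Pool.Agent.H53.MC

open Finset

theorem pf_RG : T_RG := by
  classical
  intro α _ m T hT
  have h1 : Nat.card {F : Fin m → α // ∀ c ∈ T, ∃ j, F j = c} =
      (univ.filter fun F : Fin m → α => ∀ c ∈ T, ∃ j, F j = c).card := by
    rw [Nat.card_eq_fintype_card, Fintype.card_subtype]
  rw [h1]
  have hsub : (univ.filter fun F : Fin m → α => ∀ c ∈ T, ∃ j, F j = c) ⊆
      ((univ.filter fun g : T → Fin m => Function.Injective g).biUnion fun g =>
        univ.filter fun F : Fin m → α => ∀ c : T, F (g c) = c) := by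
    intro F hF
    simp only [mem_filter, mem_univ, true_and] at hF
    have hF' : ∀ c : T, ∃ j, F j = c := fun c => hF c c.2
    choose g hg using hF'
    simp only [mem_biUnion, mem_filter, mem_univ, true_and]
    refine ⟨g, ?_, hg⟩
    intro a b hab
    apply Subtype.ext
    rw [← hg a, ← hg b, hab]
  refine (card_le_card hsub).trans (card_biUnion_le.trans ?_)
  have hone : ∀ g ∈ (univ.filter fun g : T → Fin m => Function.Injective g),
      (univ.filter fun F : Fin m → α => ∀ c : T, F (g c) = c).card ≤
        Fintype.card α ^ (m - T.card) := by
    intro g hg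
    simp only [mem_filter, mem_univ, true_and] at hg
    have hpi : (univ.filter fun F : Fin m → α => ∀ c : T, F (g c) = c) =
        Fintype.piFinset fun j : Fin m => univ.filter fun a : α => ∀ c : T, g c = j → a = c := by
      ext F
      simp only [mem_filter, mem_univ, true_and, Fintype.mem_piFinset]
      exact ⟨fun h j c hc => by rw [← hc]; exact h c, fun h c => h (g c) c rfl⟩
    rw [hpi, Fintype.card_piFinset]
    have hle : ∀ j ∈ (univ : Finset (Fin m)),
        (univ.filter fun a : α => ∀ c : T, g c = j → a = c).card ≤
          if j ∈ univ.image g then 1 else Fintype.card α := by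
      intro j _
      split_ifs with h
      · obtain ⟨c, -, hc⟩ := mem_image.1 h
        refine (card_le_card (t := {(c : α)}) ?_).trans (by simp)
        intro a ha
        simp only [mem_filter, mem_univ, true_and] at ha
        simp [ha c hc]
      · exact (card_le_card (filter_subset _ _)).trans (by simp)
    refine (prod_le_prod' hle).trans ?_
    rw [prod_ite]
    simp only [prod_const_one, one_mul, prod_const]
    have hc : (univ.filter fun j : Fin m => ¬ j ∈ univ.image g).card = m - T.card := by
      have h2 : (univ.filter fun j : Fin m => ¬ j ∈ univ.image g) = (univ.image g)ᶜ := by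
        ext j; simp
      rw [h2, card_compl, card_image_of_injective _ hg]
      simp
    rw [hc]
  refine (sum_le_card_nsmul _ _ _ hone).trans ?_
  rw [smul_eq_mul]
  refine Nat.mul_le_mul_right _ ?_
  refine (card_le_card (filter_subset _ _)).trans ?_
  simp

end Pool.Agent.H53.MC
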