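import Pool.Agent.H53.MC.TOC
import Pool.Agent.H53.MC.KM
import Pool.Agent.H53.MC.CHE
import Pool.Agent.H41.MC.CAP
import Pool.Agent.H1.MSC.HIT
import Pool.Agent.H53.MC.EC
import Pool.Agent.H79.MSC.LK
import Pool.Agent.H53.MC.PL
import Pool.Agent.H53.MC.LS
import Pool.Agent.H53.MC.PC
import Pool.Agent.H53.MC.AC
import Pool.Agent.H53.MC.AL
import Pool.Agent.H53.MC.EXH
import Pool.Agent.H53.MC.ASM
import Pool.Agent.H53.MC.NUM
import Pool.Agent.H53.MC.LX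
import Pool.Agent.H5.MSC.LF
import Pool.Agent.H53.MC.RG

/-!
MP_c62aed_lc, FixedLinesSETH: composition of the rows.
-/

set_option autoImplicit false

namespace Pool.Agent.H53.MC

theorem main : Main :=
  have hF : T_LF := Pool.Agent.H5.MSC.pf_LF pf_RG Pool.Agent.H1.MSC.pf_HIT
  pf_ASM pf_CHE pf_EXH pf_NUM
    (pf_AL (pf_LS pf_LX) hF (pf_PL Pool.Agent.H79.MSC.pf_LK pf_TOC) Pool.Agent.H41.MC.pf_CAP
      Pool.Agent.H1.MSC.pf_HIT)
    (pf_AC (pf_EC pf_LX) hF pf_PC pf_KM Pool.Agent.H41.MC.pf_CAP Pool.Agent.H1.MSC.pf_HIT) pf_TOC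

end Pool.Agent.H53.MC
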