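import Pool.Agent.H53.MC.Stmt

/-!
MP_c62aed_lc, MonotoneSETH: definitions used in the proof (not in the statement).
`X = Fin n → Bool`; the universe of clauses is `Fin M × (Fin k → Bool)`, the clause `(j, s)` is
violated by `x` when `x (e j i) = s i` for all `i`.
-/

set_option autoImplicit false

namespace Pool.Agent.H53.MC

open Finset

/-- The universe of possible clauses. -/
abbrev U (M k : ℕ) : Type := Fin M × (Fin k → Bool)

section

variable {n M k : ℕ} (e : Fin M → Fin k → Fin n)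

/-- The assignment `x` violates the clause `c`. -/
def Viol (c : U M k) (x : Fin n → Bool) : Prop := ∀ i, x (e c.1 i) = c.2 i

/-- The clause as a set of literals. -/
def toC (c : U M k) : Clause n := univ.image fun i => (e c.1 i, !(c.2 i))

/-- The variables of the scope `j`. -/
def scope (j : Fin M) : Finset (Fin n) := univ.image (e j)

/-- The clause `c` is inside `(A, x)`: its scope is inside `A` and `x` violates it. -/
def Ins (p : Finset (Fin n) × (Fin n → Bool)) (c : U M k) : Prop :=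
  scope e c.1 ⊆ p.1 ∧ Viol e c p.2

/-- The number of scopes inside `A`. -/
def cnt (A : Finset (Fin n)) : ℕ := (univ.filter fun j : Fin M => scope e j ⊆ A).card

/-- No set of at most `w + k` variables contains more than `s₀` scopes. -/
def H1 (w s₀ : ℕ) : Prop := ∀ A : Finset (Fin n), A.card ≤ w + k → cnt e A ≤ s₀

/-- Every assignment of `B` violates a clause of `T`. -/
def Covers (T : Finset (U M k)) (B : Finset (Fin n → Bool)) : Prop := ∀ x ∈ B, ∃ c ∈ T, Viol e c x

/-- The kernel of `B`. -/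
def Ker (r w : ℕ) (B : Finset (Fin n → Bool)) : Set (Finset (Fin n) × (Fin n → Bool)) :=
  {p | p.1.card < w ∧ ∀ T : Finset (U M k), T.card ≤ r → Covers e T B → ∃ c ∈ T, Ins e p c}

open Classical in
/-- The exceptions of `B`. -/
noncomputable def Err (r w : ℕ) (B : Finset (Fin n → Bool)) : Finset (Fin n → Bool) :=
  B.filter fun x => ∀ A : Finset (Fin n), A.card < w → (A, x) ∉ Ker e r w B

/-- The finite set `T` of clauses is contained in the range of `F`. -/
def InR {m : ℕ} (F : Fin m → U M k) (T : Finset (U M k)) : Prop := ∀ c ∈ T, ∃ j, F j = c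

/-- `F` hits all elements of some member `K` of the chain `𝒦`, but no `q` clauses of `F` do. -/
def Bad {m : ℕ} (q : ℕ) (𝒦 : Set (Set (Finset (Fin n) × (Fin n → Bool)))) (F : Fin m → U M k) :
    Prop :=
  ∃ K ∈ 𝒦, (∀ p ∈ K, ∃ j, Ins e p (F j)) ∧
    ∀ T : Finset (U M k), InR F T → T.card ≤ q → ∃ p ∈ K, ∀ c ∈ T, ¬ Ins e p c

/-- The clauses of the formula as sets of literals. -/
def cf {m : ℕ} (F : Fin m → U M k) : Fin m → Clause n := fun j => toC e (F j)

open Classical in
/-- The assignments outside of `E` for which the value of the gate `f` is less than `a`. -/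
noncomputable def BB (E : Finset (Fin n → Bool)) (f : Set (Clause n) → ℝ) (a : ℝ) :
    Finset (Fin n → Bool) :=
  univ.filter fun x => x ∉ E ∧ f (SatBy x) < a

open Classical in
/-- The exceptions of the gates before the gate `i`. -/
noncomputable def EE (r w : ℕ) (h : ℕ → Set (Clause n) → ℝ) : ℕ → Finset (Fin n → Bool)
  | 0 => ∅
  | i + 1 => EE r w h i ∪ univ.filter fun x => ∃ a : ℝ, x ∈ Err e r w (BB (EE r w h i) (h i) a)

/-- The chain of the kernels of the gate `i`. -/
def KC (r w : ℕ) (h : ℕ → Set (Clause n) → ℝ) (i : ℕ) :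
    Set (Set (Finset (Fin n) × (Fin n → Bool))) :=
  {K | ∃ a : ℝ, K = Ker e r w (BB (EE e r w h i) (h i) a)}

/-- Every assignment violates at least `(1 - ε) m / 2 ^ k` clauses of `F`. -/
def Gap {m : ℕ} (ε : ℝ) (F : Fin m → U M k) : Prop :=
  ∀ x : Fin n → Bool, (1 - ε) * m / 2 ^ k ≤ (Nat.card {j // Viol e (F j) x} : ℝ)

end

/-- The bound for the number of exceptions of one chain. -/
def tau (n r w d s₀ : ℕ) : ℕ := r ^ (w / d + 1) * 2 ^ (d * s₀) * 2 ^ (n - w)

/-- The conditions on the parameters. -/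
structure Par (ε : ℝ) (n t k m M w d s₀ r q : ℕ) : Prop where
  t1 : 1 ≤ t
  nt : n ≤ t
  k1 : 1 ≤ k
  kn : k ≤ n
  M1 : 1 ≤ M
  d1 : 1 ≤ d
  w1 : 1 ≤ w
  wn : w ≤ n
  q1 : 1 ≤ q
  qm : q + 1 ≤ m
  rr : t + t * q ≤ r
  tau4 : 4 * (tau n r w d s₀ : ℝ) ≤ 2 ^ (ε * n)
  cov : 4 * (q * 2 ^ (n - k)) < 2 ^ n
  bad : 2 ^ (n + t + 2) * ((s₀ * m) ^ (q + 1) * (M * 2 ^ k) ^ (m - (q + 1))) ≤ (M * 2 ^ k) ^ m
  hit : 4 * (t * (m * s₀ * (M * 2 ^ k) ^ (m - 1))) ≤ (M * 2 ^ k) ^ m

end Pool.Agent.H53.MC
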