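import Mathlib

/-!
MP_c62aed_lc: fixed lines and monotone real circuits at the scale of SETH.
The definitions used by the statement.
-/

set_option autoImplicit false

namespace Pool.Agent.H53.MC

/-- A clause with the variables `x_i`, `i : Fin n`: a finite set of literals. The literal `(i, b)`
is true when the variable `x_i` has the value `b`. -/
abbrev Clause (n : ℕ) : Type := Finset (Fin n × Bool)

/-- All literals of the clause `c` are false under `x`. -/
def Falsified {n : ℕ} (c : Clause n) (x : Fin n → Bool) : Prop :=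
  ∀ l ∈ c, x l.1 ≠ l.2

/-- The clause `c` consists of `k` literals of `k` different variables. -/
def Width {n : ℕ} (k : ℕ) (c : Clause n) : Prop :=
  c.card = k ∧ ∀ l ∈ c, ∀ l' ∈ c, l.1 = l'.1 → l = l'

/-- All clauses which are satisfied by `x`. -/
def SatBy {n : ℕ} (x : Fin n → Bool) : Set (Clause n) := {c | ¬ Falsified c x}

/-- A line is an arbitrary Boolean function of the assignment, given as the set of the assignments
for which it is true. -/
abbrev Line (n : ℕ) : Type := Finset (Fin n → Bool)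

/-- The lines of the family `𝓛` which can be derived from the CNF with the clauses `F j`: the line
`L` of `𝓛` is derived if it follows from at most `t` derived lines and at most `t` clauses of `F`. -/
inductive Derives {n m : ℕ} (F : Fin m → Clause n) (𝓛 : Finset (Line n)) (t : ℕ) : Line n → Prop
  | step (L : Line n) (P : Finset (Line n)) (T : Finset (Clause n)) : L ∈ 𝓛 → P.card ≤ t →
      (∀ Q ∈ P, Derives F 𝓛 t Q) → T.card ≤ t → (∀ c ∈ T, ∃ j, F j = c) →
      (∀ x, (∀ Q ∈ P, x ∈ Q) → (∀ c ∈ T, ¬ Falsified c x) → x ∈ L) → Derives F 𝓛 t L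

/-- `h 0, .., h (s - 1)` are the functions computed by the `s` gates of a monotone real circuit
whose input is a set of clauses: every gate tells whether a certain clause is in the set, or it is a
nondecreasing real function of at most `t` earlier gates. -/
def Circuit {n : ℕ} (t s : ℕ) (h : ℕ → Set (Clause n) → ℝ) : Prop :=
  ∀ i, i < s → (∃ c : Clause n, ∀ S, (c ∈ S → h i S = 1) ∧ (c ∉ S → h i S = 0)) ∨
    ∃ J : Finset ℕ, J.card ≤ t ∧ (∀ j ∈ J, j < i) ∧
      ∀ S S', (∀ j ∈ J, h j S ≤ h j S') → h i S ≤ h i S'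

/-- `s` objects exclude `b` of the `2 ^ n` assignments for `a` of the `N` formulas. If
`s ≤ 2 ^ ((1 - ε) n)` and at least half of the assignments are excluded, then `a / N < 2 ^ (-t)`; if
more than `s 2 ^ (ε n)` assignments are excluded, then `a / N ≤ 1 / t`. -/
def Few (ε : ℝ) (n t s b a N : ℕ) : Prop :=
  ((s : ℝ) ≤ 2 ^ ((1 - ε) * n) → 2 ^ n ≤ 2 * b → 2 ^ t * a < N) ∧
    ((s : ℝ) * 2 ^ (ε * n) < b → t * a ≤ N)

/-- The final statement. -/
def Main : Prop :=
  ∀ ε : ℝ, 0 < ε → ∃ C : ℕ, ∀ n t : ℕ, C ≤ n → n ≤ t → C * Nat.log 2 t ≤ n →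
    ∃ (ι : Type) (_ : Fintype ι) (k m : ℕ) (F : ι → Fin m → Clause n),
      Nonempty ι ∧ k ≤ C * Nat.log 2 t ∧ 0 < m ∧ m ≤ t ^ C ∧
      (∀ i j, Width k (F i j)) ∧
      (∀ i x, (1 - ε) * m / 2 ^ k ≤ (Nat.card {j // Falsified (F i j) x} : ℝ)) ∧
      (∀ (𝓛 : Finset (Line n)) (L : Line n),
        Few ε n t 𝓛.card (Nat.card {x // x ∉ L}) (Nat.card {i // Derives (F i) 𝓛 t L})
          (Nat.card ι)) ∧
      ∀ (s : ℕ) (h : ℕ → Set (Clause n) → ℝ), Circuit t s h → ∀ o, o < s → ∀ θ : ℝ,
        Few ε n t s (Nat.card {x // h o (SatBy x) < θ})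
          (Nat.card {i // θ ≤ h o (Set.range (F i))}) (Nat.card ι)

end Pool.Agent.H53.MC
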